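import Pool.Agent.Helper14.RG.LC.Cl4
import Pool.Agent.Helper14.CG.CEN
import Pool.Agent.Helper79.CG.CC
import Pool.Agent.Helper48.CG.DET1
import Pool.Agent.Helper48.CG.EQV
import Pool.Agent.Helper48.CG.W4X
import Pool.Agent.Helper48.CG.W4Y
import Pool.Agent.Helper19.CG.DIAG
import Pool.Agent.Helper19.CG.LEVC
import Pool.Agent.Helper19.CG.LEVF
import Pool.Agent.Helper19.CG.REFL
import Pool.Agent.Helper19.CG.W1
import Pool.Agent.Helper19.CG.W4D
import Pool.Agent.Helper19.CG.W4H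
import Pool.Agent.Helper28.CG.GENA
import Pool.Agent.Helper51.CG.GENS
import Pool.Agent.Helper61.CG.GLC
import Pool.Agent.Helper27.CG.GNZ
import Pool.Agent.Helper27.CG.W4I
import Pool.Agent.Helper27.CG.WIT
import Pool.Agent.Helper76.CG.II
import Pool.Agent.Helper76.CG.Irr
import Pool.Agent.Helper15.CG.LEV
import Pool.Agent.Helper82.CG.NF1
import Pool.Agent.Helper82.CG.NF2
import Pool.Agent.Helper52.CG.PRD
import Pool.Agent.Helper52.CG.TRN
import Pool.Agent.Helper52.CG.W1N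
import Pool.Agent.Helper97.CG.W4
import Pool.Agent.Helper18.CGH.HYP

set_option autoImplicit false

/-!
# All facts about the isometry groups
-/

namespace Pool.Agent.Helper14.RG

open MvPolynomial Matrix Pool.Agent.Helper97.CG

universe u

/-- The facts for every nondegenerate symmetric or alternating form. -/
theorem formFacts {k : Type u} [Field k] [IsAlgClosed k] [CharZero k] {n : ℕ} {ε : k}
    {J : Matrix (Fin n) (Fin n) k} (hJ : IsForm ε J) (hn : ε = 1 → 3 ≤ n) : FormFacts J := by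
  have hEQV : ST_EQV k := st_EQV k
  have hGENA : ST_GENA k := st_GENA k
  have hGENS : ST_GENS k := Pool.Agent.Helper51.CG.st_GENS k
  have hDET : ST_DET1 k := st_DET1 k hGENA
  have hREFL : ST_REFL k := Pool.Agent.Helper19.CG.st_REFL
  have hIRR : ST_IRR k := st_IRR hGENS hGENA
  have hCEN : ST_CEN k := st_CEN hEQV
  have hLEVF : ST_LEVF k := Pool.Agent.Helper19.CG.st_LEVF
  have hLEVC : ST_LEVC k := Pool.Agent.Helper19.CG.st_LEVC
  have hCC : ST_CC k := Pool.Agent.Helper79.CG.st_CC hLEVF hLEVC hEQV hCEN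
  have hTRN : ST_TRN k := Pool.Agent.Helper52.CG.st_TRN
  have hPRD : ST_PRD k := Pool.Agent.Helper52.CG.st_PRD
  have hLEV : ST_LEV k := st_LEV hLEVF hLEVC
  have hGLC : ST_GLC k := Pool.Agent.Helper61.CG.st_GLC k
  have hNF1 : ST_NF1 k := st_NF1
  have hNF2 : ST_NF2 k := st_NF2
  have hW1 : ST_W1 k := Pool.Agent.Helper19.CG.st_W1 hEQV hDET hREFL
  have hW1N : ST_W1N k := Pool.Agent.Helper52.CG.st_W1N hW1 hTRN
  have hGNZ : ST_GNZ k := st_GNZ k
  have hHYP : ST_HYP k := Pool.Agent.Helper18.CGH.st_HYP hEQV Pool.Agent.Helper19.CG.st_DIAG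
    st_WIT hGNZ
  have hW4 : ST_W4 k := st_W4 hHYP (st_W4I k hLEVF) Pool.Agent.Helper19.CG.st_W4H
    (Pool.Agent.Helper19.CG.st_W4D hLEVC) (st_W4Y k hEQV hDET hREFL) (st_W4X k hEQV) hGNZ
  have hII : ST_II k := st_II hTRN hLEV hPRD hGLC hNF1 hNF2 hW4 hW1N
  exact FormFacts.of hIRR hCEN hCC hII hJ hn

end Pool.Agent.Helper14.RG
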