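import Pool.Agent.Helper14.RG.LC.Asm
import Pool.Agent.Helper97.CG.Defs

set_option autoImplicit false

/-!
# The groups `{x ∈ SL_n : xᵀ J x = J}` for an arbitrary matrix `J`
-/

namespace Pool.Agent.Helper14.RG

open MvPolynomial Matrix Pool.Agent.Helper97.CG

/-- the group `H'` may be made smaller -/
lemma HasLChart.mono {k : Type*} [Field k] {G : Type*} [Group G] {A : Subalgebra k (G → k)}
    {H H' H'' : Subgroup G} (h : HasLChart A H H') (h1 : H ≤ H'') (h2 : H'' ≤ H') :
    HasLChart A H H'' := by
  obtain ⟨N, hN, hD, ⟨ch⟩⟩ := h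
  exact ⟨N, hN, hD, ⟨{
    hH := h1
    q0 := ch.q0
    q0_mem := ch.q0_mem
    q0_ne := ch.q0_ne
    t := ch.t
    treg := ch.treg
    sep := ch.sep
    dom := ch.dom
    inv := ch.inv
    equiv := fun x hx => ch.equiv x (h2 hx) }⟩⟩

section Iso

variable {k : Type*} [Field k] {n : Type} [Fintype n] [DecidableEq n] (J : Matrix n n k)

lemma iso_entry_mem (i j : n) : (fun g : IsoG J => isoHom J g i j) ∈ mAlg (isoHom J) :=
  Algebra.subset_adjoin ⟨i, j, rfl⟩

lemma isoHom_coe (g : IsoG J) :
    isoHom J g = ((g : Matrix.SpecialLinearGroup n k) : Matrix n n k) := rfl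

lemma isoHom_det (g : IsoG J) : (isoHom J g).det = 1 := (g : Matrix.SpecialLinearGroup n k).2

lemma isoHom_rel (g : IsoG J) : (isoHom J g)ᵀ * J * isoHom J g = J := g.2

lemma isoHom_inj : Function.Injective (isoHom J) := by
  intro g h hgh
  apply Subtype.ext
  apply Subtype.ext
  exact hgh

lemma isoHom_inv (g : IsoG J) : isoHom J g⁻¹ = (isoHom J g).adjugate := by
  rw [isoHom_coe, isoHom_coe, Subgroup.coe_inv, Matrix.SpecialLinearGroup.coe_inv]

lemma mAlg_comp {X : Type*} (B : Subalgebra k (X → k)) (f : X → IsoG J)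
    (h : ∀ i j, (fun x => isoHom J (f x) i j) ∈ B) {a : IsoG J → k} (ha : a ∈ mAlg (isoHom J)) :
    (fun x => a (f x)) ∈ B := by
  induction ha using Algebra.adjoin_induction with
  | mem x hx =>
    obtain ⟨i, j, rfl⟩ := hx
    exact h i j
  | algebraMap r => exact Subalgebra.algebraMap_mem _ r
  | add x y _ _ hx hy => exact add_mem hx hy
  | mul x y _ _ hx hy => exact mul_mem hx hy

lemma iso_rstable : RStable (mAlg (isoHom J)) := by
  intro h a ha
  refine mAlg_comp J (mAlg (isoHom J)) (fun g => g * h) ?_ ha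
  intro i j
  simp only [map_mul]
  exact mul_mem_alg (mAlg (isoHom J)) (fun g => isoHom J g)
    (fun _ => isoHom J h) (iso_entry_mem J) (fun _ _ => const_mem _ _) i j

lemma iso_grpAlg : GrpAlg (mAlg (isoHom J)) := by
  refine ⟨?_, ?_⟩
  · intro a ha
    refine mAlg_comp J _ (fun x : IsoG J × IsoG J => x.1 * x.2) ?_ ha
    intro i j
    simp only [map_mul]
    refine mul_mem_alg _ (fun x : IsoG J × IsoG J => isoHom J x.1)
      (fun x : IsoG J × IsoG J => isoHom J x.2) ?_ ?_ i j
    · intro i j
      exact Algebra.subset_adjoin ⟨_, iso_entry_mem J i j, Or.inl rfl⟩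
    · intro i j
      exact Algebra.subset_adjoin ⟨_, iso_entry_mem J i j, Or.inr rfl⟩
  · intro a ha
    refine mAlg_comp J (mAlg (isoHom J)) (fun g => g⁻¹) ?_ ha
    intro i j
    simp only [isoHom_inv]
    exact adjugate_mem_alg (mAlg (isoHom J)) (fun g => isoHom J g) (iso_entry_mem J) i j

lemma iso_aff : Aff (mAlg (isoHom J)) := by
  refine Aff.of (N := n × n) (fun ij g => isoHom J g ij.1 ij.2) ?_ ?_
  · unfold mAlg
    congr 1
    ext f
    constructor
    · rintro ⟨i, j, rfl⟩
      exact ⟨(i, j), rfl⟩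
    · rintro ⟨⟨i, j⟩, rfl⟩
      exact ⟨i, j, rfl⟩
  · intro z hz
    let W : Matrix n n (MvPolynomial (n × n) k) := Matrix.of fun i j => X (i, j)
    have hW : ∀ u : n × n → k, W.map (eval u) = Matrix.of fun i j => u (i, j) := by
      intro u
      ext i j
      show eval u (X (i, j)) = u (i, j)
      rw [eval_X]
    have hWg : ∀ g : IsoG J, W.map (eval fun ij : n × n => isoHom J g ij.1 ij.2) = isoHom J g := by
      intro g
      rw [hW]
      rfl
    have hdet : ∀ u : n × n → k, eval u (W.det - 1) = (W.map (eval u)).det - 1 := by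
      intro u
      rw [map_sub, map_one, RingHom.map_det]
      rfl
    let JC : Matrix n n (MvPolynomial (n × n) k) := J.map C
    let V : Matrix n n (MvPolynomial (n × n) k) := Wᵀ * JC * W
    have hrel : ∀ (u : n × n → k) (i j : n), eval u (V i j - C (J i j))
        = ((W.map (eval u))ᵀ * J * W.map (eval u)) i j - J i j := by
      intro u i j
      have h2 : JC.map (eval u) = J := by
        ext i j
        show eval u (C (J i j)) = J i j
        rw [eval_C]
      have h1 : V.map (eval u) = (W.map (eval u))ᵀ * J * W.map (eval u) := by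
        show (Wᵀ * JC * W).map (eval u) = _
        rw [Matrix.map_mul, Matrix.map_mul, ← Matrix.transpose_map, h2]
      rw [map_sub, eval_C, ← h1]
      rfl
    have e1 := hz (W.det - 1) (by
      intro g
      rw [hdet, hWg, isoHom_det, sub_self])
    rw [hdet] at e1
    have e2 : ∀ i j, ((W.map (eval z))ᵀ * J * W.map (eval z)) i j = J i j := by
      intro i j
      have h1 := hz (V i j - C (J i j)) (by
        intro g
        rw [hrel, hWg, isoHom_rel, sub_self])
      rw [hrel] at h1
      exact sub_eq_zero.mp h1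
    refine ⟨⟨⟨W.map (eval z), sub_eq_zero.mp e1⟩, ?_⟩, ?_⟩
    · ext i j
      exact e2 i j
    · rintro ⟨i, j⟩
      show (W.map (eval z)) i j = z (i, j)
      rw [hW]
      rfl

end Iso

end Pool.Agent.Helper14.RG
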