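import Pool.Agent.Helper14.RG.LC.Cl1
import Pool.Agent.Helper14.RG.General

set_option autoImplicit false

/-!
# Standard isomorphisms between the groups `IsoG J`
-/

namespace Pool.Agent.Helper14.RG

open MvPolynomial Matrix Pool.Agent.Helper97.CG

section Std

variable {k : Type*} [Field k] {n m l : ℕ}

/-- `f` is `g ↦ a g a⁻¹` or `g ↦ a g⁻ᵀ a⁻¹` for an invertible matrix `a` -/
def IsStdIso {J : Matrix (Fin n) (Fin n) k} {J' : Matrix (Fin m) (Fin m) k}
    (f : IsoG J ≃* IsoG J') : Prop :=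
  ∃ (ε : Bool) (a : Matrix (Fin m) (Fin n) k) (b : Matrix (Fin n) (Fin m) k),
    a * b = 1 ∧ b * a = 1 ∧ ∀ g, StdRel ε a (isoHom J' (f g)) (isoHom J g)

lemma IsStdIso.refl (J : Matrix (Fin n) (Fin n) k) : IsStdIso (MulEquiv.refl (IsoG J)) := by
  refine ⟨false, 1, 1, mul_one 1, mul_one 1, fun g => ?_⟩
  show isoHom J g * 1 = 1 * isoHom J g
  rw [Matrix.mul_one, Matrix.one_mul]

lemma stdRel_false {a : Matrix (Fin m) (Fin n) k} {h : Matrix (Fin m) (Fin m) k}
    {g : Matrix (Fin n) (Fin n) k} : StdRel false a h g ↔ h * a = a * g := Iff.rfl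

lemma stdRel_true {a : Matrix (Fin m) (Fin n) k} {h : Matrix (Fin m) (Fin m) k}
    {g : Matrix (Fin n) (Fin n) k} : StdRel true a h g ↔ h * a * gᵀ = a := Iff.rfl

lemma transpose_one_of {a : Matrix (Fin m) (Fin n) k} {b : Matrix (Fin n) (Fin m) k}
    (h : a * b = 1) : bᵀ * aᵀ = 1 := by rw [← transpose_mul, h, transpose_one]

lemma IsStdIso.symm {J : Matrix (Fin n) (Fin n) k} {J' : Matrix (Fin m) (Fin m) k}
    {f : IsoG J ≃* IsoG J'} (h : IsStdIso f) : IsStdIso f.symm := by
  obtain ⟨ε, a, b, hab, hba, h⟩ := h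
  cases ε
  · refine ⟨false, b, a, hba, hab, fun y => ?_⟩
    obtain ⟨g, rfl⟩ := f.surjective y
    rw [MulEquiv.symm_apply_apply, stdRel_false]
    have h1 := stdRel_false.mp (h g)
    calc isoHom J g * b = (b * a) * isoHom J g * b := by rw [hba, Matrix.one_mul]
      _ = b * (a * isoHom J g) * b := by rw [Matrix.mul_assoc b a]
      _ = b * (isoHom J' (f g) * a) * b := by rw [h1]
      _ = b * isoHom J' (f g) * (a * b) := by simp only [Matrix.mul_assoc]
      _ = b * isoHom J' (f g) := by rw [hab, Matrix.mul_one]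
  · refine ⟨true, aᵀ, bᵀ, transpose_one_of hba, transpose_one_of hab, fun y => ?_⟩
    obtain ⟨g, rfl⟩ := f.surjective y
    rw [MulEquiv.symm_apply_apply, stdRel_true]
    have h1 := congrArg transpose (stdRel_true.mp (h g))
    rw [transpose_mul, transpose_mul, transpose_transpose, ← Matrix.mul_assoc] at h1
    exact h1

lemma IsStdIso.trans {J : Matrix (Fin n) (Fin n) k} {J' : Matrix (Fin m) (Fin m) k}
    {J'' : Matrix (Fin l) (Fin l) k} {f : IsoG J ≃* IsoG J'} {f' : IsoG J' ≃* IsoG J''}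
    (h : IsStdIso f) (h' : IsStdIso f') : IsStdIso (f.trans f') := by
  obtain ⟨ε, a, b, hab, hba, h⟩ := h
  obtain ⟨ε', a', b', hab', hba', h'⟩ := h'
  have e1 : (a' * a) * (b * b') = 1 := by
    calc (a' * a) * (b * b') = a' * (a * b) * b' := by simp only [Matrix.mul_assoc]
      _ = 1 := by rw [hab, Matrix.mul_one, hab']
  have e2 : (b * b') * (a' * a) = 1 := by
    calc (b * b') * (a' * a) = b * (b' * a') * a := by simp only [Matrix.mul_assoc]
      _ = 1 := by rw [hba', Matrix.mul_one, hba]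
  have e3 : (a' * bᵀ) * (aᵀ * b') = 1 := by
    calc (a' * bᵀ) * (aᵀ * b') = a' * (bᵀ * aᵀ) * b' := by simp only [Matrix.mul_assoc]
      _ = 1 := by rw [transpose_one_of hab, Matrix.mul_one, hab']
  have e4 : (aᵀ * b') * (a' * bᵀ) = 1 := by
    calc (aᵀ * b') * (a' * bᵀ) = aᵀ * (b' * a') * bᵀ := by simp only [Matrix.mul_assoc]
      _ = 1 := by rw [hba', Matrix.mul_one, transpose_one_of hba]
  cases ε
  · cases ε'
    · refine ⟨false, a' * a, b * b', e1, e2, fun g => ?_⟩
      rw [stdRel_false]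
      have h1 := stdRel_false.mp (h g)
      have h2 := stdRel_false.mp (h' (f g))
      show isoHom J'' (f' (f g)) * (a' * a) = a' * a * isoHom J g
      rw [← Matrix.mul_assoc, h2, Matrix.mul_assoc, h1, Matrix.mul_assoc]
    · refine ⟨true, a' * bᵀ, aᵀ * b', e3, e4, fun g => ?_⟩
      rw [stdRel_true]
      have h1 := congrArg transpose (stdRel_false.mp (h g))
      rw [transpose_mul, transpose_mul] at h1
      have h2 := stdRel_true.mp (h' (f g))
      show isoHom J'' (f' (f g)) * (a' * bᵀ) * (isoHom J g)ᵀ = a' * bᵀ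
      have h3 : bᵀ * (isoHom J g)ᵀ = (isoHom J' (f g))ᵀ * bᵀ := by
        calc bᵀ * (isoHom J g)ᵀ = bᵀ * ((isoHom J g)ᵀ * (aᵀ * bᵀ)) := by
              rw [transpose_one_of hba, Matrix.mul_one]
          _ = bᵀ * ((isoHom J g)ᵀ * aᵀ) * bᵀ := by simp only [Matrix.mul_assoc]
          _ = (bᵀ * aᵀ) * (isoHom J' (f g))ᵀ * bᵀ := by rw [← h1, ← Matrix.mul_assoc bᵀ aᵀ]
          _ = (isoHom J' (f g))ᵀ * bᵀ := by rw [transpose_one_of hab, Matrix.one_mul]
      calc isoHom J'' (f' (f g)) * (a' * bᵀ) * (isoHom J g)ᵀ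
          = isoHom J'' (f' (f g)) * a' * (bᵀ * (isoHom J g)ᵀ) := by simp only [Matrix.mul_assoc]
        _ = isoHom J'' (f' (f g)) * a' * (isoHom J' (f g))ᵀ * bᵀ := by
            rw [h3, ← Matrix.mul_assoc]
        _ = a' * bᵀ := by rw [h2]
  · cases ε'
    · refine ⟨true, a' * a, b * b', e1, e2, fun g => ?_⟩
      rw [stdRel_true]
      have h1 := stdRel_true.mp (h g)
      have h2 := stdRel_false.mp (h' (f g))
      show isoHom J'' (f' (f g)) * (a' * a) * (isoHom J g)ᵀ = a' * a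
      calc isoHom J'' (f' (f g)) * (a' * a) * (isoHom J g)ᵀ
          = (isoHom J'' (f' (f g)) * a') * a * (isoHom J g)ᵀ := by simp only [Matrix.mul_assoc]
        _ = a' * (isoHom J' (f g) * a * (isoHom J g)ᵀ) := by
            rw [h2]; simp only [Matrix.mul_assoc]
        _ = a' * a := by rw [h1]
    · refine ⟨false, a' * bᵀ, aᵀ * b', e3, e4, fun g => ?_⟩
      rw [stdRel_false]
      have h1 := stdRel_true.mp (h g)
      have h2 := stdRel_true.mp (h' (f g))
      show isoHom J'' (f' (f g)) * (a' * bᵀ) = a' * bᵀ * isoHom J g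
      -- the inverse of `(f g)ᵀ`
      have h3 : (bᵀ * isoHom J g * aᵀ) * (isoHom J' (f g))ᵀ = 1 := by
        have h4 := congrArg transpose h1
        rw [transpose_mul, transpose_mul, transpose_transpose] at h4
        calc (bᵀ * isoHom J g * aᵀ) * (isoHom J' (f g))ᵀ
            = bᵀ * (isoHom J g * (aᵀ * (isoHom J' (f g))ᵀ)) := by simp only [Matrix.mul_assoc]
          _ = bᵀ * aᵀ := by rw [h4]
          _ = 1 := transpose_one_of hab
      have h5 : (isoHom J' (f g))ᵀ * (bᵀ * isoHom J g * aᵀ) = 1 := mul_eq_one_comm.mp h3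
      calc isoHom J'' (f' (f g)) * (a' * bᵀ)
          = isoHom J'' (f' (f g)) * a' * ((isoHom J' (f g))ᵀ * (bᵀ * isoHom J g * aᵀ)) * bᵀ := by
            rw [h5, Matrix.mul_one, Matrix.mul_assoc]
        _ = (isoHom J'' (f' (f g)) * a' * (isoHom J' (f g))ᵀ) * (bᵀ * isoHom J g) * (aᵀ * bᵀ) := by
            simp only [Matrix.mul_assoc]
        _ = a' * bᵀ * isoHom J g := by
            rw [h2, transpose_one_of hba, Matrix.mul_one, Matrix.mul_assoc]

lemma IsStdIso.reg {J : Matrix (Fin n) (Fin n) k} {J' : Matrix (Fin m) (Fin m) k}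
    {f : IsoG J ≃* IsoG J'} (h : IsStdIso f) :
    ∀ x ∈ mAlg (isoHom J'), (fun g => x (f g)) ∈ mAlg (isoHom J) := by
  obtain ⟨ε, a, b, hab, hba, h⟩ := h
  intro x hx
  refine mAlg_comp J' (mAlg (isoHom J)) f ?_ hx
  cases ε
  · have h1 : ∀ g, isoHom J' (f g) = a * isoHom J g * b := by
      intro g
      rw [← stdRel_false.mp (h g), Matrix.mul_assoc, hab, Matrix.mul_one]
    intro i j
    simp only [h1]
    exact mul_mem_alg (mAlg (isoHom J)) (fun g => a * isoHom J g) (fun _ => b)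
      (fun i j => mul_mem_alg (mAlg (isoHom J)) (fun _ => a) (fun g => isoHom J g)
        (fun _ _ => const_mem _ _) (iso_entry_mem J) i j) (fun _ _ => const_mem _ _) i j
  · have h1 : ∀ g, isoHom J' (f g) = a * (isoHom J g⁻¹)ᵀ * b := by
      intro g
      have h2 := stdRel_true.mp (h g)
      have h3 : (isoHom J g)ᵀ * (isoHom J g⁻¹)ᵀ = 1 := by
        rw [← transpose_mul, ← map_mul, inv_mul_cancel, map_one, transpose_one]
      calc isoHom J' (f g) = isoHom J' (f g) * (a * ((isoHom J g)ᵀ * (isoHom J g⁻¹)ᵀ) * b) := by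
            rw [h3, Matrix.mul_one, hab, Matrix.mul_one]
        _ = (isoHom J' (f g) * a * (isoHom J g)ᵀ) * (isoHom J g⁻¹)ᵀ * b := by
            simp only [Matrix.mul_assoc]
        _ = _ := by rw [h2]
    intro i j
    simp only [h1]
    refine mul_mem_alg (mAlg (isoHom J)) (fun g => a * (isoHom J g⁻¹)ᵀ) (fun _ => b)
      (fun i j => mul_mem_alg (mAlg (isoHom J)) (fun _ => a) (fun g => (isoHom J g⁻¹)ᵀ)
        (fun _ _ => const_mem _ _) (fun i j => ?_) i j) (fun _ _ => const_mem _ _) i j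
    exact (iso_grpAlg J).2 _ (iso_entry_mem J j i)

end Std

end Pool.Agent.Helper14.RG
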