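import Pool.Agent.Helper14.RG.LC.Cl2

set_option autoImplicit false

/-!
# Charts for the standard automorphisms of `IsoG J`
-/

namespace Pool.Agent.Helper14.RG

open MvPolynomial Matrix Pool.Agent.Helper97.CG

/-- transport along an isomorphism -/
lemma HasLChart.congr {k : Type*} [Field k] {G1 G2 : Type*} [Group G1] [Group G2]
    {A1 : Subalgebra k (G1 → k)} {A2 : Subalgebra k (G2 → k)} {H2 H2' : Subgroup G2}
    (h : HasLChart A2 H2 H2') (e : G1 ≃* G2) (he : ∀ a ∈ A2, (fun g => a (e g)) ∈ A1) :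
    HasLChart A1 (H2.comap e.toMonoidHom) (H2'.comap e.toMonoidHom) := by
  obtain ⟨N, hN, hD, ⟨ch⟩⟩ := h
  refine ⟨N, hN, hD, ⟨ch.transport _ _ (Subgroup.comap_mono ch.hH) e.toEquiv he e
    (fun h hh => hh) (fun h hh => hh) (fun h2 hh2 => ⟨e.symm h2, ?_, e.apply_symm_apply h2⟩)
    (fun h _ g => map_mul e g h)⟩⟩
  show e (e.symm h2) ∈ H2
  rw [MulEquiv.apply_symm_apply]
  exact hh2

/-- The facts about the isometry group of a form which are needed. -/
structure FormFacts {k : Type*} [Field k] {n : ℕ} (J : Matrix (Fin n) (Fin n) k) : Prop where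
  det : J.det ≠ 0
  irr : Irr (mAlg (isoHom J))
  comm : ∀ M : Matrix (Fin n) (Fin n) k, (∀ g : IsoG J, M * isoHom J g = isoHom J g * M) →
    ∃ c : k, M = c • (1 : Matrix (Fin n) (Fin n) k)
  cc : HasLChart (mAlg (isoHom J)) ⊥ (Subgroup.center (IsoG J))
  hc : ∀ (s : Matrix (Fin n) (Fin n) k) (N : ℕ), 0 < N → sᵀ * J * s = J → s ^ N = 1 →
    HC (isoHom J) s

section Form

variable {k : Type*} [Field k] {n : ℕ} {J : Matrix (Fin n) (Fin n) k}

/-- central elements are `1` or `-1` -/
lemma FormFacts.center (h : FormFacts J) {z : IsoG J} (hz : z ∈ Subgroup.center (IsoG J)) :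
    isoHom J z = 1 ∨ isoHom J z = -1 := by
  obtain ⟨c, hc⟩ := h.comm (isoHom J z) (fun g => by
    rw [← map_mul, ← map_mul, Subgroup.mem_center_iff.mp hz g])
  rcases Nat.eq_zero_or_pos n with h0 | h0
  · subst h0
    left
    exact Subsingleton.elim _ _
  have h1 := isoHom_rel J z
  rw [hc, transpose_smul, transpose_one, smul_mul_assoc, Matrix.one_mul, Matrix.mul_smul,
    Matrix.mul_one, smul_smul] at h1
  have hJ : J ≠ 0 := by
    rintro rfl
    apply h.det
    have : Nonempty (Fin n) := ⟨⟨0, h0⟩⟩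
    exact Matrix.det_zero
  have h2 : (c * c - 1) • J = 0 := by rw [sub_smul, one_smul, h1, sub_self]
  have h3 : c * c - 1 = 0 := (smul_eq_zero.mp h2).resolve_right hJ
  have h4 : (c - 1) * (c + 1) = 0 := by linear_combination h3
  rcases mul_eq_zero.mp h4 with h5 | h5
  · left
    rw [hc, sub_eq_zero.mp h5, one_smul]
  · right
    rw [hc, eq_neg_of_add_eq_zero_left h5, neg_smul, one_smul]

lemma FormFacts.finite_center (h : FormFacts J) : Finite (Subgroup.center (IsoG J)) := by
  refine Finite.of_injective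
    (β := ({1, -1} : Set (Matrix (Fin n) (Fin n) k))) (fun z => ⟨isoHom J z, ?_⟩) ?_
  · rcases h.center z.2 with h1 | h1
    · rw [h1]; left; rfl
    · rw [h1]; right; rfl
  · intro z z' hzz
    apply Subtype.ext
    simp only [Subtype.mk.injEq] at hzz
    exact isoHom_inj J hzz

/-- a standard automorphism is the conjugation by an isometry -/
lemma FormFacts.exists_isometry [IsAlgClosed k] [CharZero k] (h : FormFacts J)
    {T : IsoG J ≃* IsoG J} (hT : IsStdIso T) :
    ∃ s : Matrix (Fin n) (Fin n) k, sᵀ * J * s = J ∧ ∀ g, isoHom J (T g) * s = s * isoHom J g := by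
  have h1 : ∃ c : Matrix (Fin n) (Fin n) k, c.det ≠ 0 ∧
      ∀ g, isoHom J (T g) * c = c * isoHom J g := by
    obtain ⟨ε, a, b, hab, hba, hT⟩ := hT
    have ha : a.det ≠ 0 := by
      intro h0
      have := congrArg Matrix.det hab
      rw [Matrix.det_mul, h0, zero_mul, Matrix.det_one] at this
      exact zero_ne_one this
    cases ε
    · exact ⟨a, ha, hT⟩
    · refine ⟨a * J, ?_, fun g => ?_⟩
      · rw [Matrix.det_mul]
        exact mul_ne_zero ha h.det
      · have h2 := stdRel_true.mp (hT g)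
        have h3 := isoHom_rel J g
        calc isoHom J (T g) * (a * J) = isoHom J (T g) * (a * ((isoHom J g)ᵀ * J * isoHom J g)) := by
              rw [h3]
          _ = (isoHom J (T g) * a * (isoHom J g)ᵀ) * J * isoHom J g := by
              simp only [Matrix.mul_assoc]
          _ = a * J * isoHom J g := by rw [h2]
  obtain ⟨c, hc, hcT⟩ := h1
  have hJu : IsUnit J.det := isUnit_iff_ne_zero.mpr h.det
  have hinv : ∀ g : IsoG J, (isoHom J g)ᵀ * (cᵀ * J * c) * isoHom J g = cᵀ * J * c := by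
    intro g
    calc (isoHom J g)ᵀ * (cᵀ * J * c) * isoHom J g
        = (c * isoHom J g)ᵀ * J * (c * isoHom J g) := by
          rw [transpose_mul]; simp only [Matrix.mul_assoc]
      _ = (isoHom J (T g) * c)ᵀ * J * (isoHom J (T g) * c) := by rw [hcT]
      _ = cᵀ * ((isoHom J (T g))ᵀ * J * isoHom J (T g)) * c := by
          rw [transpose_mul]; simp only [Matrix.mul_assoc]
      _ = cᵀ * J * c := by rw [isoHom_rel]
  obtain ⟨r, hr⟩ := h.comm (J⁻¹ * (cᵀ * J * c)) (by
    intro g
    have h2 := isoHom_rel J g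
    -- `gᵀ J = J g⁻¹`
    have hg1 : isoHom J g * isoHom J g⁻¹ = 1 := by rw [← map_mul, mul_inv_cancel, map_one]
    have hg2 : isoHom J g⁻¹ * isoHom J g = 1 := by rw [← map_mul, inv_mul_cancel, map_one]
    have h3 : (isoHom J g)ᵀ * J = J * isoHom J g⁻¹ := by
      calc (isoHom J g)ᵀ * J = (isoHom J g)ᵀ * J * (isoHom J g * isoHom J g⁻¹) := by
            rw [hg1, Matrix.mul_one]
        _ = ((isoHom J g)ᵀ * J * isoHom J g) * isoHom J g⁻¹ := by simp only [Matrix.mul_assoc]
        _ = J * isoHom J g⁻¹ := by rw [h2]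
    have h4 : isoHom J g * J⁻¹ * (isoHom J g)ᵀ = J⁻¹ := by
      calc isoHom J g * J⁻¹ * (isoHom J g)ᵀ
          = isoHom J g * J⁻¹ * ((isoHom J g)ᵀ * (J * J⁻¹)) := by
            rw [Matrix.mul_nonsing_inv _ hJu, Matrix.mul_one]
        _ = isoHom J g * J⁻¹ * ((isoHom J g)ᵀ * J) * J⁻¹ := by simp only [Matrix.mul_assoc]
        _ = isoHom J g * (J⁻¹ * J) * isoHom J g⁻¹ * J⁻¹ := by
            rw [h3]; simp only [Matrix.mul_assoc]
        _ = J⁻¹ := by rw [Matrix.nonsing_inv_mul _ hJu, Matrix.mul_one, hg1, Matrix.one_mul]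
    calc J⁻¹ * (cᵀ * J * c) * isoHom J g
        = (isoHom J g * J⁻¹ * (isoHom J g)ᵀ) * (cᵀ * J * c) * isoHom J g := by rw [h4]
      _ = isoHom J g * J⁻¹ * ((isoHom J g)ᵀ * (cᵀ * J * c) * isoHom J g) := by
          simp only [Matrix.mul_assoc]
      _ = isoHom J g * (J⁻¹ * (cᵀ * J * c)) := by rw [hinv, Matrix.mul_assoc])
  have hcJ : cᵀ * J * c = r • J := by
    calc cᵀ * J * c = J * (J⁻¹ * (cᵀ * J * c)) := by
          rw [← Matrix.mul_assoc, Matrix.mul_nonsing_inv _ hJu, Matrix.one_mul]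
      _ = r • J := by rw [hr, Matrix.mul_smul, Matrix.mul_one]
  rcases Nat.eq_zero_or_pos n with h0 | h0
  · subst h0
    exact ⟨c, Subsingleton.elim _ _, hcT⟩
  have hr0 : r ≠ 0 := by
    rintro rfl
    have h2 := congrArg Matrix.det hcJ
    rw [zero_smul, Matrix.det_mul, Matrix.det_mul, Matrix.det_transpose] at h2
    have : Nonempty (Fin n) := ⟨⟨0, h0⟩⟩
    rw [Matrix.det_zero] at h2
    exact mul_ne_zero (mul_ne_zero hc h.det) hc h2
  obtain ⟨w, hw⟩ := IsAlgClosed.exists_pow_nat_eq r (n := 2) (by norm_num)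
  have hw0 : w ≠ 0 := by
    rintro rfl
    apply hr0
    rw [← hw]
    ring
  refine ⟨w⁻¹ • c, ?_, fun g => ?_⟩
  · rw [transpose_smul, Matrix.smul_mul, Matrix.smul_mul, Matrix.mul_smul, hcJ, smul_smul,
      smul_smul, ← hw]
    have : w⁻¹ * w⁻¹ * w ^ 2 = 1 := by field_simp
    rw [this, one_smul]
  · rw [Matrix.mul_smul, hcT, Matrix.smul_mul]

theorem FormFacts.chart [IsAlgClosed k] [CharZero k] (h : FormFacts J)
    {T : IsoG J ≃* IsoG J} (hT : IsStdIso T) (hfin : FinMod T) :
    HasLChart (mAlg (isoHom J)) (fixSub T) (fixMod T) := by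
  obtain ⟨s, hsJ, hs⟩ := h.exists_isometry hT
  obtain ⟨M, hM, hMT⟩ := hfin
  have hJu : IsUnit J.det := isUnit_iff_ne_zero.mpr h.det
  -- `s` is invertible
  have hs1 : (J⁻¹ * sᵀ * J) * s = 1 := by
    calc (J⁻¹ * sᵀ * J) * s = J⁻¹ * (sᵀ * J * s) := by simp only [Matrix.mul_assoc]
      _ = 1 := by rw [hsJ, Matrix.nonsing_inv_mul _ hJu]
  have hs2 : s * (J⁻¹ * sᵀ * J) = 1 := mul_eq_one_comm.mp hs1
  have hcan : ∀ x y : Matrix (Fin n) (Fin n) k, x * s = y * s → x = y := by
    intro x y hxy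
    calc x = x * s * (J⁻¹ * sᵀ * J) := by rw [Matrix.mul_assoc, hs2, Matrix.mul_one]
      _ = y * s * (J⁻¹ * sᵀ * J) := by rw [hxy]
      _ = y := by rw [Matrix.mul_assoc, hs2, Matrix.mul_one]
  have hit : ∀ (m : ℕ) (g : IsoG J), isoHom J (T^[m] g) * s ^ m = s ^ m * isoHom J g := by
    intro m
    induction m with
    | zero => intro g; rw [pow_zero, Matrix.mul_one, Matrix.one_mul]; rfl
    | succ m ih =>
      intro g
      rw [Function.iterate_succ_apply', pow_succ' s, ← Matrix.mul_assoc, hs, Matrix.mul_assoc,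
        ih, ← Matrix.mul_assoc]
  -- a power of `s` is one
  have hpow : ∃ N : ℕ, 0 < N ∧ s ^ N = 1 := by
    have h2 : ∀ g : IsoG J, s ^ (2 * M) * isoHom J g = isoHom J g * s ^ (2 * M) := by
      intro g
      obtain ⟨z, hz, hzg⟩ := hMT g
      have h3 := hit M g
      rw [hzg, map_mul] at h3
      rcases h.center hz with h4 | h4
      · rw [h4, Matrix.one_mul] at h3
        rw [two_mul, pow_add, Matrix.mul_assoc, ← h3, ← Matrix.mul_assoc, ← h3, Matrix.mul_assoc]
      · rw [h4, neg_mul, neg_mul, Matrix.one_mul] at h3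
        rw [two_mul, pow_add, Matrix.mul_assoc, ← h3, Matrix.mul_neg, ← Matrix.mul_assoc, ← h3,
          neg_mul, neg_neg, Matrix.mul_assoc]
    obtain ⟨r, hr⟩ := h.comm _ h2
    have hiso : ∀ m : ℕ, (s ^ m)ᵀ * J * s ^ m = J := by
      intro m
      induction m with
      | zero => rw [pow_zero, transpose_one, Matrix.one_mul, Matrix.mul_one]
      | succ m ih =>
        rw [pow_succ, transpose_mul]
        calc sᵀ * (s ^ m)ᵀ * J * (s ^ m * s) = sᵀ * ((s ^ m)ᵀ * J * s ^ m) * s := by
              simp only [Matrix.mul_assoc]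
          _ = J := by rw [ih, hsJ]
    refine ⟨2 * M * 2, by omega, ?_⟩
    rcases Nat.eq_zero_or_pos n with h0 | h0
    · subst h0
      exact Subsingleton.elim _ _
    have h3 := hiso (2 * M)
    rw [hr, transpose_smul, transpose_one, smul_mul_assoc, Matrix.one_mul, Matrix.mul_smul,
      Matrix.mul_one, smul_smul] at h3
    have hJ : J ≠ 0 := by
      rintro rfl
      apply h.det
      have : Nonempty (Fin n) := ⟨⟨0, h0⟩⟩
      exact Matrix.det_zero
    have h4 : (r * r - 1) • J = 0 := by rw [sub_smul, one_smul, h3, sub_self]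
    have h5 : r * r - 1 = 0 := (smul_eq_zero.mp h4).resolve_right hJ
    rw [pow_mul, hr, pow_two, Matrix.smul_mul, Matrix.one_mul, smul_smul, sub_eq_zero.mp h5,
      one_smul]
  obtain ⟨N, hN, hsN⟩ := hpow
  have h1 : HasLChart (mAlg (isoHom J)) (cm (isoHom J) s) (cmm (isoHom J) s) :=
    h.hc s N hN hsJ hsN
  have h2 : cm (isoHom J) s = fixSub T := by
    ext g
    constructor
    · intro hg
      have hg' : s * isoHom J g = isoHom J g * s := hg
      show T g = g
      apply isoHom_inj J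
      apply hcan
      rw [hs, hg']
    · intro hg
      have hg' : T g = g := hg
      show s * isoHom J g = isoHom J g * s
      rw [← hs, hg']
  rw [h2] at h1
  refine h1.mono (fixSub_le_fixMod T) ?_
  intro g hg
  obtain ⟨z, hz, hzg⟩ := mem_fixMod.mp hg
  have h3 := hs g
  rw [hzg, map_mul] at h3
  rcases h.center hz with h4 | h4
  · left
    rw [← h3, h4, Matrix.one_mul]
  · right
    rw [← h3, h4, neg_mul, neg_mul, Matrix.one_mul]

end Form

section Zero

variable {k : Type*} [Field k] {n : ℕ}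

/-- `IsoG 0` is `SL_n`. -/
def isoZero : IsoG (0 : Matrix (Fin n) (Fin n) k) ≃* Matrix.SpecialLinearGroup (Fin n) k where
  toFun g := g
  invFun g := ⟨g, by
    show (g : Matrix (Fin n) (Fin n) k)ᵀ * 0 * (g : Matrix (Fin n) (Fin n) k) = 0
    rw [Matrix.mul_zero, Matrix.zero_mul]⟩
  left_inv _ := rfl
  right_inv _ := rfl
  map_mul' _ _ := rfl

lemma isoZero_reg : ∀ a ∈ slAlg k n, (fun g => a (isoZero g)) ∈
    mAlg (isoHom (0 : Matrix (Fin n) (Fin n) k)) := by
  intro a ha
  induction ha using Algebra.adjoin_induction with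
  | mem x hx =>
    obtain ⟨i, j, rfl⟩ := hx
    exact iso_entry_mem 0 i j
  | algebraMap r => exact Subalgebra.algebraMap_mem _ r
  | add x y _ _ hx hy => exact add_mem hx hy
  | mul x y _ _ hx hy => exact mul_mem hx hy

lemma isoZero_reg' : ∀ a ∈ mAlg (isoHom (0 : Matrix (Fin n) (Fin n) k)),
    (fun g => a (isoZero.symm g)) ∈ slAlg k n := by
  intro a ha
  refine mAlg_comp 0 (slAlg k n) isoZero.symm ?_ ha
  intro i j
  exact entry_mem i j

lemma irr_zero [Infinite k] : Irr (mAlg (isoHom (0 : Matrix (Fin n) (Fin n) k))) := by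
  refine ⟨⟨1⟩, ?_⟩
  intro a ha b hb ha0 hb0
  have h1 : (fun g => a ((isoZero (k := k) (n := n)).symm g)) ≠ 0 := by
    obtain ⟨g, hg⟩ := Function.ne_iff.mp ha0
    exact Function.ne_iff.mpr ⟨isoZero g, by rw [MulEquiv.symm_apply_apply]; exact hg⟩
  have h2 : (fun g => b ((isoZero (k := k) (n := n)).symm g)) ≠ 0 := by
    obtain ⟨g, hg⟩ := Function.ne_iff.mp hb0
    exact Function.ne_iff.mpr ⟨isoZero g, by rw [MulEquiv.symm_apply_apply]; exact hg⟩
  obtain ⟨g, hg1, hg2⟩ := (slAlg_irr (k := k) (n := n)).2 _ (isoZero_reg' a ha) _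
    (isoZero_reg' b hb) h1 h2
  exact ⟨_, hg1, hg2⟩

lemma mem_center_mulEquiv {G1 G2 : Type*} [Group G1] [Group G2] (e : G1 ≃* G2) (z : G1) :
    e z ∈ Subgroup.center G2 ↔ z ∈ Subgroup.center G1 := by
  rw [Subgroup.mem_center_iff, Subgroup.mem_center_iff]
  constructor
  · intro h g
    apply e.injective
    rw [map_mul, map_mul]
    exact h (e g)
  · intro h g
    obtain ⟨g, rfl⟩ := e.surjective g
    rw [← map_mul, ← map_mul, h g]

lemma finite_center_zero : Finite (Subgroup.center (IsoG (0 : Matrix (Fin n) (Fin n) k))) := by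
  have := finite_center_SL (k := k) n
  refine Finite.of_injective
    (β := Subgroup.center (Matrix.SpecialLinearGroup (Fin n) k))
    (fun z => ⟨isoZero (z : IsoG (0 : Matrix (Fin n) (Fin n) k)),
      (mem_center_mulEquiv isoZero _).mpr z.2⟩) ?_
  intro z z' h
  apply Subtype.ext
  simp only [Subtype.mk.injEq] at h
  exact isoZero.injective h

lemma cc_zero [IsAlgClosed k] : HasLChart (mAlg (isoHom (0 : Matrix (Fin n) (Fin n) k))) ⊥
    (Subgroup.center (IsoG (0 : Matrix (Fin n) (Fin n) k))) := by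
  have h1 : HasLChart (slAlg k n) ⊥
      (Subgroup.center (Matrix.SpecialLinearGroup (Fin n) k)) := by
    have h0 : HasChart (slAlg k n) ⊥
      (Subgroup.center (Matrix.SpecialLinearGroup (Fin n) k)) := exists_centerChart n
    exact h0.toL
  have h2 := h1.congr isoZero isoZero_reg
  have e1 : (⊥ : Subgroup (Matrix.SpecialLinearGroup (Fin n) k)).comap
      (isoZero (k := k) (n := n)).toMonoidHom = ⊥ := by
    ext g
    rw [Subgroup.mem_comap, Subgroup.mem_bot, Subgroup.mem_bot]
    constructor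
    · intro h
      apply isoZero.injective
      rw [map_one]
      exact h
    · rintro rfl
      exact map_one isoZero
  have e2 : (Subgroup.center (Matrix.SpecialLinearGroup (Fin n) k)).comap
      (isoZero (k := k) (n := n)).toMonoidHom = Subgroup.center _ := by
    ext g
    exact mem_center_mulEquiv isoZero g
  rw [e1, e2] at h2
  exact h2

theorem chart_zero [IsAlgClosed k] [CharZero k]
    {T : IsoG (0 : Matrix (Fin n) (Fin n) k) ≃* IsoG (0 : Matrix (Fin n) (Fin n) k)}
    (hT : IsStdIso T) (hfin : FinMod T) :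
    HasLChart (mAlg (isoHom (0 : Matrix (Fin n) (Fin n) k))) (fixSub T) (fixMod T) := by
  let T' : Matrix.SpecialLinearGroup (Fin n) k ≃* Matrix.SpecialLinearGroup (Fin n) k :=
    (isoZero.symm.trans T).trans isoZero
  have hT' : IsStd T' := by
    obtain ⟨ε, a, b, hab, hba, h⟩ := hT
    refine ⟨a, ?_, ?_⟩
    · intro h0
      have := congrArg Matrix.det hab
      rw [Matrix.det_mul, h0, zero_mul, Matrix.det_one] at this
      exact zero_ne_one this
    · cases ε
      · left
        intro g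
        exact h (isoZero.symm g)
      · right
        intro g
        exact h (isoZero.symm g)
  have happ : ∀ g, T' (isoZero g) = isoZero (T g) := fun g => rfl
  obtain ⟨M, hM, hMT⟩ := hfin
  have hit : ∀ (m : ℕ) (g), T'^[m] (isoZero g) = isoZero (T^[m] g) := by
    intro m
    induction m with
    | zero => intro g; rfl
    | succ m ih => intro g; rw [Function.iterate_succ_apply, happ, ih]; rfl
  have hpow : ∀ x, ∃ z ∈ Subgroup.center (Matrix.SpecialLinearGroup (Fin n) k),
      T'^[M] x = z * x := by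
    intro x
    obtain ⟨g, rfl⟩ := isoZero.surjective x
    obtain ⟨z, hz, hzg⟩ := hMT g
    refine ⟨isoZero z, (mem_center_mulEquiv isoZero z).mpr hz, ?_⟩
    rw [hit, hzg, map_mul]
  have h0 : HasChart (slAlg k n) (fixSub T') (fixMod T') := exists_chart T' hT' M hM hpow
  have h2 := h0.toL.congr isoZero isoZero_reg
  have e1 : (fixSub T').comap (isoZero (k := k) (n := n)).toMonoidHom = fixSub T := by
    ext g
    constructor
    · intro h
      have h3 : isoZero (T g) = isoZero g := h
      exact isoZero.injective h3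
    · intro h
      have h3 : T g = g := h
      show isoZero (T g) = isoZero g
      rw [h3]
  have e2 : (fixMod T').comap (isoZero (k := k) (n := n)).toMonoidHom = fixMod T := by
    ext g
    constructor
    · rintro ⟨z, hz, h⟩
      refine ⟨isoZero.symm z, (mem_center_mulEquiv isoZero _).mp (by
        rw [MulEquiv.apply_symm_apply]; exact hz), ?_⟩
      apply isoZero.injective
      rw [map_mul, MulEquiv.apply_symm_apply]
      exact h
    · rintro ⟨z, hz, h⟩
      refine ⟨isoZero z, (mem_center_mulEquiv isoZero z).mpr hz, ?_⟩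
      show isoZero (T g) = isoZero z * isoZero g
      rw [h, map_mul]
  rw [e1, e2] at h2
  exact h2

end Zero

end Pool.Agent.Helper14.RG
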