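import Pool.Agent.Helper14.RG.LC.Cl3
import Pool.Agent.Helper97.CG.Stmts

set_option autoImplicit false

/-!
# Quotients of products of groups `IsoG J` (special linear, symplectic, special orthogonal)
-/

namespace Pool.Agent.Helper14.RG

open MvPolynomial Matrix Pool.Agent.Helper97.CG

/-- Rationality of `G / G^σ` for all quotients `G` of products of the groups `IsoG (J i)` by central
subgroups and all automorphisms of finite order which permute the factors by standard
isomorphisms. -/
theorem iso_rational {k : Type*} [Field k] [IsAlgClosed k] [CharZero k] {ι : Type*} [Fintype ι]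
    [DecidableEq ι] (n : ι → ℕ) (J : ∀ i, Matrix (Fin (n i)) (Fin (n i)) k)
    (hJ : ∀ i, J i = 0 ∨ FormFacts (J i))
    {Q : Type*} [Group Q] (π : (∀ i, IsoG (J i)) →* Q)
    (hπ : Function.Surjective π) (hZ : π.ker ≤ Subgroup.center _) (σ : Q ≃* Q) (M : ℕ) (hM : 0 < M)
    (hfin : ∀ x, σ^[M] x = x) (p : Equiv.Perm ι) (τ : ∀ i, IsoG (J (p i)) ≃* IsoG (J i))
    (hτ : ∀ i, IsStdIso (τ i)) (hσ : ∀ g : ∀ i, IsoG (J i), σ (π g) = π (fun i => τ i (g (p i)))) :
    RationalQuotient (quotAlg (prodAlg fun i => mAlg (isoHom (J i))) π : Set (Q → k))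
      (fixSub σ) := by
  have : Infinite k := IsAlgClosed.instInfinite
  refine Lasm_rational (fun i => mAlg (isoHom (J i))) (fun i => ?_) (fun i => iso_rstable _)
    (fun i => iso_aff _) (fun i => ?_) (fun i => iso_grpAlg _) (fun i j f => IsStdIso f)
    (fun i => IsStdIso.refl _) (fun i j l f g hf hg => IsStdIso.trans hf hg)
    (fun i j f hf => IsStdIso.reg hf) (fun i j f hf => IsStdIso.reg hf.symm)
    (fun i T hT hfin => ?_) (fun i => ?_) π hπ hZ σ M hM hfin p τ hτ hσ
  · rcases hJ i with h | h
    · rw [h]; exact irr_zero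
    · exact h.irr
  · rcases hJ i with h | h
    · rw [h]; exact finite_center_zero
    · exact h.finite_center
  · rcases hJ i with h | h
    · revert T
      rw [h]
      intro T hT hfin
      exact chart_zero hT hfin
    · exact h.chart hT hfin
  · rcases hJ i with h | h
    · rw [h]; exact cc_zero
    · exact h.cc

universe u

/-- The facts about a form from the rows. -/
lemma FormFacts.of {k : Type u} [Field k] [IsAlgClosed k] [CharZero k] (hIRR : ST_IRR k)
    (hCEN : ST_CEN k) (hCC : ST_CC k) (hII : ST_II k) {n : ℕ} {ε : k}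
    {J : Matrix (Fin n) (Fin n) k} (hJ : IsForm ε J) (hn : ε = 1 → 3 ≤ n) : FormFacts J where
  det := hJ.det_ne
  irr := hIRR (Fin n) ε J hJ
  comm := hCEN (Fin n) ε J hJ (fun h => by rw [Fintype.card_fin]; exact hn h)
  cc := hCC (Fin n) ε J hJ (fun h => by rw [Fintype.card_fin]; exact hn h)
  hc := fun s N hN hs hsN => hII (Fin n) ε J s hJ hs N hN hsN

end Pool.Agent.Helper14.RG
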