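import Pool.Agent.Helper14.RG.LC.Prod
import Pool.Agent.Helper14.RG.Cyc

set_option autoImplicit false

/-!
# Charts without section for the cyclic automorphisms of a power
-/

namespace Pool.Agent.Helper14.RG

open MvPolynomial

variable {k : Type*} [Field k]

section Cyc

variable {S : Type*} [Group S] (m : ℕ) (τ : Fin (m + 1) → (S ≃* S))

variable {A : Subalgebra k (S → k)} {N0 NC : Type} [Fintype N0] [DecidableEq N0] [Fintype NC]
  [DecidableEq NC]

/-- the family of charts -/
noncomputable def LcycCh {H H' : Subgroup S} (ch : LChart A H H' N0)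
    (cc : LChart A ⊥ (Subgroup.center S) NC) (j : Fin (m + 1)) :
    LChart A (cycH m H ⊥ j) (cycH m H' (Subgroup.center S) j) (cycN N0 NC m j) := by
  refine Fin.cases ?_ ?_ j
  · exact ch
  · intro i; exact cc

/-- The chart for the automorphism `(g_j) ↦ (τ_j g_{j+1})`. -/
noncomputable def LcycChart [Infinite k]
    (hmul : ∀ a ∈ A, ∀ (B : Subalgebra k ((Fin (m + 1) → S) → k)) (f f' : (Fin (m + 1) → S) → S),
      (∀ b ∈ A, (fun g => b (f g)) ∈ B) → (∀ b ∈ A, (fun g => b (f' g)) ∈ B) →
      (fun g => a (f g * f' g)) ∈ B)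
    (hinv : ∀ a ∈ A, (fun g => a g⁻¹) ∈ A)
    (hτ : ∀ j, ∀ a ∈ A, (fun g => a (τ j g)) ∈ A) (hτ' : ∀ j, ∀ a ∈ A, (fun g => a ((τ j).symm g)) ∈ A)
    (ch : LChart A (fixSub (thN m τ (m + 1))) (fixMod (thN m τ (m + 1))) N0)
    (cc : LChart A ⊥ (Subgroup.center S) NC) :
    LChart (prodAlg (fun _ : Fin (m + 1) => A)) (fixSub (cycAut m τ)) (fixMod (cycAut m τ))
      (Σ j, cycN N0 NC m j) := by
  have hθ : ∀ j, ∀ a ∈ A, (fun g => a (thN m τ j g)) ∈ A := by
    intro j
    induction j with
    | zero => intro a ha; exact ha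
    | succ j ih => intro a ha; exact hτ _ _ (ih a ha)
  have hθ' : ∀ j, ∀ a ∈ A, (fun g => a ((thN m τ j).symm g)) ∈ A := by
    intro j
    induction j with
    | zero => intro a ha; exact ha
    | succ j ih => intro a ha; exact ih _ (hτ' _ _ ha)
  refine LChart.transport (LChart.prod (LcycCh m ch cc)
    (Subgroup.pi Set.univ (cycH m (fixMod (thN m τ (m + 1))) (Subgroup.center S))) ?_ le_rfl)
    (fixSub (cycAut m τ)) (fixMod (cycAut m τ)) (fixSub_le_fixMod _) (cycPhi m τ) ?_
    (cycPhi m τ) ?_ ?_ ?_ ?_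
  · intro h hh j _
    have := hh j (Set.mem_univ j)
    revert this
    refine Fin.cases ?_ ?_ j
    · intro h1; exact fixSub_le_fixMod _ h1
    · intro i h1
      have h2 : h i.succ = 1 := Subgroup.mem_bot.mp h1
      show h i.succ ∈ Subgroup.center S
      rw [h2]; exact one_mem _
  · intro a ha
    induction ha using Algebra.adjoin_induction with
    | mem x hx =>
      obtain ⟨j, a', ha', rfl⟩ := hx
      by_cases hj : j = 0
      · subst hj
        simp only [cycPhi_zero]
        exact mem_prodAlg _ 0 ha'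
      · simp only [cycPhi_ne m τ _ hj]
        exact hmul a' ha' _ (fun g => thN m τ j.val (g j)) (fun g => (g 0)⁻¹)
          (fun b hb => mem_prodAlg (fun _ => A) j (hθ _ b hb))
          (fun b hb => mem_prodAlg (fun _ => A) 0 (hinv b hb))
    | algebraMap r => exact Subalgebra.algebraMap_mem _ r
    | add x y _ _ hx hy => exact add_mem hx hy
    | mul x y _ _ hx hy => exact mul_mem hx hy
  · intro h hh j _
    have hval : ∀ i : Fin m, (i.succ : Fin (m + 1)).val ≤ m := fun i => by
      have := i.isLt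
      simp only [Fin.val_succ]; omega
    refine Fin.cases ?_ ?_ j
    · show cycPhi m τ h 0 ∈ fixMod _
      rw [cycPhi_zero]
      exact T_mod m τ hh
    · intro i
      show cycPhi m τ h i.succ ∈ Subgroup.center S
      rw [cycPhi_ne m τ h (Fin.succ_ne_zero i)]
      obtain ⟨z, hz, h2⟩ := thN_mod m τ hh (i.succ : Fin (m + 1)).val (hval i)
      rw [ofNat_val] at h2
      rw [h2, mul_inv_cancel_right]
      exact hz
  · intro h hh j _
    have hval : ∀ i : Fin m, (i.succ : Fin (m + 1)).val ≤ m := fun i => by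
      have := i.isLt
      simp only [Fin.val_succ]; omega
    refine Fin.cases ?_ ?_ j
    · show cycPhi m τ h 0 ∈ fixSub _
      rw [cycPhi_zero]
      exact T_fix m τ hh
    · intro i
      show cycPhi m τ h i.succ ∈ (⊥ : Subgroup S)
      rw [cycPhi_ne m τ h (Fin.succ_ne_zero i)]
      have h2 := thN_fix m τ hh (i.succ : Fin (m + 1)).val (hval i)
      rw [ofNat_val] at h2
      rw [h2, mul_inv_cancel]
      exact one_mem _
  · intro h2 hh2
    have h20 : thN m τ (m + 1) (h2 0) = h2 0 := hh2 0 (Set.mem_univ 0)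
    have h2s : ∀ j : Fin (m + 1), j ≠ 0 → h2 j = 1 := by
      intro j hj
      have := hh2 j (Set.mem_univ j)
      obtain ⟨i, rfl⟩ := Fin.exists_succ_eq.mpr hj
      exact Subgroup.mem_bot.mp this
    refine ⟨(cycPhi m τ).symm h2, ?_, Equiv.apply_symm_apply _ _⟩
    have hval : ∀ j : Fin (m + 1), (cycPhi m τ).symm h2 j = (thN m τ j.val).symm (h2 0) := by
      intro j
      by_cases hj : j = 0
      · subst hj
        rw [cycPhi_symm_zero]
        rfl
      · rw [cycPhi_symm_ne m τ h2 hj, h2s j hj, one_mul]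
    show cycAut m τ ((cycPhi m τ).symm h2) = (cycPhi m τ).symm h2
    funext j
    show τ j ((cycPhi m τ).symm h2 (j + 1)) = (cycPhi m τ).symm h2 j
    rw [hval, hval]
    by_cases hj : j.val = m
    · have h5 : j + 1 = 0 := by
        apply Fin.ext
        simp [Fin.val_add, hj]
      have h6 : j = Fin.ofNat (m + 1) m := by
        apply Fin.ext
        simp [Fin.ofNat, hj]
      rw [h5]
      apply (thN m τ j.val).injective
      rw [MulEquiv.apply_symm_apply]
      show thN m τ j.val (τ j ((thN m τ 0).symm (h2 0))) = h2 0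
      rw [hj]
      have h7 : thN m τ m (τ (Fin.ofNat (m + 1) m) (h2 0)) = h2 0 := h20
      rw [← h6] at h7
      exact h7
    · have hj' : j.val < m := by have := j.isLt; omega
      have h5 : (j + 1 : Fin (m + 1)).val = j.val + 1 := by
        rw [Fin.val_add_one_of_lt]
        exact Fin.lt_def.mpr (by simpa using hj')
      rw [h5]
      apply (thN m τ j.val).injective
      rw [MulEquiv.apply_symm_apply]
      have h7 : thN m τ (j.val + 1) ((thN m τ (j.val + 1)).symm (h2 0)) = h2 0 :=
        MulEquiv.apply_symm_apply _ _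
      have h8 : ∀ x, thN m τ (j.val + 1) x = thN m τ j.val (τ (Fin.ofNat (m + 1) j.val) x) :=
        fun x => rfl
      rw [h8, ofNat_val] at h7
      exact h7
  · intro h hh g
    funext j
    by_cases hj : j = 0
    · subst hj
      rw [Pi.mul_apply, cycPhi_zero, cycPhi_zero, cycPhi_zero, Pi.mul_apply]
    · rw [Pi.mul_apply, cycPhi_ne m τ _ hj, cycPhi_ne m τ _ hj, cycPhi_ne m τ _ hj, Pi.mul_apply,
        Pi.mul_apply]
      obtain ⟨z, hz, h2⟩ := thN_mod m τ hh j.val (by have := j.isLt; omega)
      rw [ofNat_val] at h2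
      rw [map_mul, h2, mul_inv_cancel_right, mul_inv_rev]
      have := Subgroup.mem_center_iff.mp hz
      calc thN m τ j.val (g j) * (z * h 0) * ((h 0)⁻¹ * (g 0)⁻¹)
          = thN m τ j.val (g j) * (z * (g 0)⁻¹) := by group
        _ = thN m τ j.val (g j) * ((g 0)⁻¹ * z) := by rw [this]
        _ = thN m τ j.val (g j) * (g 0)⁻¹ * z := by group

end Cyc

end Pool.Agent.Helper14.RG
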