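import Pool.Agent.Helper14.RG.LC.Sep
import Pool.Agent.Helper14.RG.Core

set_option autoImplicit false

/-!
# Linear charts without section

`LChart A H H'`: rational coordinates on `G` which separate the cosets of `H`, have a dense image and
on which `H'` acts linearly.
-/

namespace Pool.Agent.Helper14.RG

open MvPolynomial

/-- `G` is a Zariski closed subset of affine space with coordinate ring `A`. -/
def Aff {k : Type*} [Field k] {G : Type*} (A : Subalgebra k (G → k)) : Prop :=
  ∃ (N : Type) (_ : Finite N) (x : N → G → k), A = Algebra.adjoin k (Set.range x) ∧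
    ∀ z : N → k, (∀ P : MvPolynomial N k, (∀ g, eval (fun i => x i g) P = 0) → eval z P = 0) →
      ∃ g, ∀ i, x i g = z i

section

variable {k : Type*} [Field k] {G : Type*}

lemma eval_eq_aeval_apply {A : Subalgebra k (G → k)} {N : Type*} (x : N → A)
    (P : MvPolynomial N k) (g : G) :
    ((aeval x P : A) : G → k) g = eval (fun i => (x i : G → k) g) P := by
  induction P using MvPolynomial.induction_on with
  | C c => simp
  | add p q hp hq =>
    rw [map_add, map_add, ← hp, ← hq]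
    rfl
  | mul_X p j hp =>
    rw [map_mul, map_mul, ← hp, aeval_X, eval_X]
    rfl

lemma map_aeval {A : Subalgebra k (G → k)} [IsDomain A] {N : Type*} (x : N → A)
    (P : MvPolynomial N k) {L : Type*} [Field L] (φ : FractionRing A →+* L) :
    φ (algebraMap A (FractionRing A) (aeval x P))
      = eval₂ (φ.comp (algebraMap k (FractionRing A)))
        (fun i => φ (algebraMap A (FractionRing A) (x i))) P := by
  induction P using MvPolynomial.induction_on with
  | C c =>
    rw [eval₂_C, ← algebraMap_eq, AlgHom.commutes]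
    rfl
  | add p q hp hq => rw [map_add, map_add, map_add, hp, hq, eval₂_add]
  | mul_X p j hp => rw [map_mul, map_mul, map_mul, hp, aeval_X, eval₂_mul, eval₂_X]

/-- Separating functions generate the field of functions constant on the fibres. -/
theorem sep_generates [IsAlgClosed k] [CharZero k] {A : Subalgebra k (G → k)} [IsDomain A]
    (hA : Aff A) {q0 : G → k} (hq : q0 ∈ A) (hq0 : q0 ≠ 0) {N : Type*} (t : G → N → k)
    (treg : ∀ j, (fun g => t g j) ∈ RegU A q0) (τ : N → FractionRing A)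
    (hτ : ∀ j, Rep A (τ j) (fun g => t g j)) (a b : A) (hb : b ≠ 0)
    (hab : ∀ g g', q0 g ≠ 0 → q0 g' ≠ 0 → t g = t g' →
      (a : G → k) g * (b : G → k) g' = (a : G → k) g' * (b : G → k) g) :
    algebraMap A (FractionRing A) a / algebraMap A (FractionRing A) b
      ∈ IntermediateField.adjoin k (Set.range τ) := by
  classical
  by_contra hf
  obtain ⟨N0, hfin, x, hAx, hpt⟩ := hA
  have hxA : ∀ i, x i ∈ A := fun i => hAx ▸ Algebra.subset_adjoin (Set.mem_range_self i)
  let xA : N0 → A := fun i => ⟨x i, hxA i⟩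
  have hpoly : ∀ c : A, ∃ P : MvPolynomial N0 k, aeval xA P = c := by
    intro c
    have h1 : (c : G → k) ∈ Algebra.adjoin k (Set.range x) := hAx ▸ c.2
    rw [Algebra.adjoin_range_eq_range_aeval] at h1
    obtain ⟨P, hP⟩ := h1
    refine ⟨P, ?_⟩
    apply Subtype.ext
    funext g
    rw [eval_eq_aeval_apply, ← hP]
    have : ∀ Q : MvPolynomial N0 k, (aeval x Q : G → k) g = eval (fun i => x i g) Q := by
      intro Q
      induction Q using MvPolynomial.induction_on with
      | C c => simp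
      | add p q hp hq => rw [map_add, map_add, ← hp, ← hq]; rfl
      | mul_X p j hp => rw [map_mul, map_mul, ← hp, aeval_X, eval_X]; rfl
    exact (this P).symm
  have hqA : (⟨q0, hq⟩ : A) ≠ 0 := fun h => hq0 (congrArg Subtype.val h)
  have hf' : algebraMap A (FractionRing A) a / algebraMap A (FractionRing A) b ∉
      Set.range (algebraMap (IntermediateField.adjoin k (Set.range τ)) (FractionRing A)) := by
    rintro ⟨y, hy⟩
    apply hf
    rw [← hy]
    exact y.2
  obtain ⟨L, _, φ, φ', hφ, hne⟩ := exists_two_hom _ hf'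
  have hι : φ'.comp (algebraMap k (FractionRing A)) = φ.comp (algebraMap k (FractionRing A)) := by
    ext c
    have := hφ (algebraMap k _ c)
    exact this.symm
  let u : N0 ⊕ N0 → L := Sum.elim (fun i => φ (algebraMap A (FractionRing A) (xA i)))
    (fun i => φ' (algebraMap A (FractionRing A) (xA i)))
  let ι : k →+* L := φ.comp (algebraMap k (FractionRing A))
  have hl : ∀ P : MvPolynomial N0 k, eval₂ ι u (rename Sum.inl P)
      = φ (algebraMap A (FractionRing A) (aeval xA P)) := by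
    intro P
    rw [map_aeval, eval₂_rename]
    rfl
  have hr : ∀ P : MvPolynomial N0 k, eval₂ ι u (rename Sum.inr P)
      = φ' (algebraMap A (FractionRing A) (aeval xA P)) := by
    intro P
    rw [map_aeval, eval₂_rename, hι]
    rfl
  choose P hP using hpoly
  have hinj : ∀ (ψ : FractionRing A →+* L) (c : A), c ≠ 0 →
      ψ (algebraMap A (FractionRing A) c) ≠ 0 := by
    intro ψ c hc h0
    exact aM_ne hc ((map_eq_zero ψ).mp h0)
  -- the polynomial
  let W : MvPolynomial (N0 ⊕ N0) k := rename Sum.inl (P ⟨q0, hq⟩) * rename Sum.inr (P ⟨q0, hq⟩)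
    * (rename Sum.inl (P a) * rename Sum.inr (P b) - rename Sum.inr (P a) * rename Sum.inl (P b))
  have hW : eval₂ ι u W ≠ 0 := by
    show eval₂ ι u (rename Sum.inl (P ⟨q0, hq⟩) * rename Sum.inr (P ⟨q0, hq⟩)
      * (rename Sum.inl (P a) * rename Sum.inr (P b)
        - rename Sum.inr (P a) * rename Sum.inl (P b))) ≠ 0
    rw [eval₂_mul, eval₂_mul, eval₂_sub, eval₂_mul, eval₂_mul, hl, hr, hl, hr, hl, hr, hP, hP, hP]
    refine mul_ne_zero (mul_ne_zero (hinj φ _ hqA) (hinj φ' _ hqA)) ?_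
    intro h0
    apply hne
    rw [map_div₀, map_div₀, div_eq_div_iff (hinj φ b hb) (hinj φ' b hb)]
    exact sub_eq_zero.mp h0
  obtain ⟨z, hzW, hz⟩ := exists_point ι u W hW
  have hrel : ∀ (Q : MvPolynomial N0 k), (∀ g, eval (fun i => x i g) Q = 0) →
      (aeval xA Q : A) = 0 := by
    intro Q hQ
    apply Subtype.ext
    funext g
    rw [eval_eq_aeval_apply]
    exact hQ g
  obtain ⟨g1, hg1⟩ := hpt (fun i => z (Sum.inl i)) (by
    intro Q hQ
    have h1 := hz (rename Sum.inl Q) (by rw [hl, hrel Q hQ, map_zero, map_zero])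
    rw [eval_rename] at h1
    exact h1)
  obtain ⟨g2, hg2⟩ := hpt (fun i => z (Sum.inr i)) (by
    intro Q hQ
    have h1 := hz (rename Sum.inr Q) (by rw [hr, hrel Q hQ, map_zero, map_zero])
    rw [eval_rename] at h1
    exact h1)
  have e1 : ∀ c : A, eval z (rename Sum.inl (P c)) = (c : G → k) g1 := by
    intro c
    rw [eval_rename]
    have h1 : (z ∘ Sum.inl) = fun i => (xA i : G → k) g1 := funext fun i => (hg1 i).symm
    rw [h1, ← eval_eq_aeval_apply, hP]
  have e2 : ∀ c : A, eval z (rename Sum.inr (P c)) = (c : G → k) g2 := by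
    intro c
    rw [eval_rename]
    have h1 : (z ∘ Sum.inr) = fun i => (xA i : G → k) g2 := funext fun i => (hg2 i).symm
    rw [h1, ← eval_eq_aeval_apply, hP]
  have hW2 : q0 g1 * q0 g2 * ((a : G → k) g1 * (b : G → k) g2 - (a : G → k) g2 * (b : G → k) g1)
      ≠ 0 := by
    have h1 := hzW
    have h2 : eval z W = eval z (rename Sum.inl (P ⟨q0, hq⟩)) * eval z (rename Sum.inr (P ⟨q0, hq⟩))
        * (eval z (rename Sum.inl (P a)) * eval z (rename Sum.inr (P b))
          - eval z (rename Sum.inr (P a)) * eval z (rename Sum.inl (P b))) := by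
      simp only [W, map_mul, map_sub]
    rw [h2, e1, e2, e1, e2, e1, e2] at h1
    exact h1
  have hq1 : q0 g1 ≠ 0 := left_ne_zero_of_mul (left_ne_zero_of_mul hW2)
  have hq2 : q0 g2 ≠ 0 := right_ne_zero_of_mul (left_ne_zero_of_mul hW2)
  have ht : t g1 = t g2 := by
    funext j
    obtain ⟨aj, haj, bj, hbj, hj⟩ := treg j
    have h1 : τ j * algebraMap A (FractionRing A) ⟨bj, hbj⟩
        = algebraMap A (FractionRing A) ⟨aj, haj⟩ := by
      refine Rep.unique ((hτ j).mul (Rep.of ⟨bj, hbj⟩)) (Rep.of ⟨aj, haj⟩) ⟨q0, hq⟩ hqA ?_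
      intro g hg
      exact (hj g hg).2
    have h2 : φ (τ j) = φ' (τ j) :=
      hφ ⟨τ j, IntermediateField.subset_adjoin k _ (Set.mem_range_self j)⟩
    have h3 : eval₂ ι u (rename Sum.inl (P ⟨aj, haj⟩) * rename Sum.inr (P ⟨bj, hbj⟩)
        - rename Sum.inr (P ⟨aj, haj⟩) * rename Sum.inl (P ⟨bj, hbj⟩)) = 0 := by
      rw [eval₂_sub, eval₂_mul, eval₂_mul, hl, hr, hl, hr, hP, hP, ← h1, map_mul, map_mul, h2]
      ring
    have h4 := hz _ h3
    rw [map_sub, map_mul, map_mul, e1, e2, e1, e2] at h4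
    have h5 : aj g1 * bj g2 = aj g2 * bj g1 := sub_eq_zero.mp h4
    obtain ⟨hb1, ht1⟩ := hj g1 hq1
    obtain ⟨hb2, ht2⟩ := hj g2 hq2
    have h6 : t g1 j * (bj g1 * bj g2) = t g2 j * (bj g1 * bj g2) := by
      calc t g1 j * (bj g1 * bj g2) = (t g1 j * bj g1) * bj g2 := by ring
        _ = aj g1 * bj g2 := by rw [ht1]
        _ = aj g2 * bj g1 := h5
        _ = (t g2 j * bj g2) * bj g1 := by rw [ht2]
        _ = t g2 j * (bj g1 * bj g2) := by ring
    exact mul_right_cancel₀ (mul_ne_zero hb1 hb2) h6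
  apply right_ne_zero_of_mul hW2
  rw [hab g1 g2 hq1 hq2 ht, sub_self]

end

/-- A linear chart for `G/H`, equivariant for the group `H' ≥ H`, without section. -/
structure LChart {k : Type*} [Field k] {G : Type*} [Group G] (A : Subalgebra k (G → k))
    (H H' : Subgroup G) (N : Type*) [Fintype N] where
  hH : H ≤ H'
  q0 : G → k
  q0_mem : q0 ∈ A
  q0_ne : q0 ≠ 0
  t : G → N → k
  treg : ∀ j, (fun g => t g j) ∈ RegU A q0
  sep : ∀ g g', q0 g ≠ 0 → q0 g' ≠ 0 → t g = t g' → ∃ h ∈ H, g' = g * h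
  dom : ∀ P : MvPolynomial N k, P ≠ 0 → ∃ g, q0 g ≠ 0 ∧ eval (t g) P ≠ 0
  inv : ∀ h ∈ H, ∀ g, q0 g ≠ 0 → ∀ j, t (g * h) j = t g j
  equiv : ∀ h ∈ H', ∃ ρ : Matrix N N k, ∀ g, q0 g ≠ 0 →
    q0 (g * h) ≠ 0 ∧ ∀ j, t (g * h) j = ∑ l, ρ j l * t g l

lemma LChart.eq_zero_of_vanish {k : Type*} [Field k] {G : Type*} [Group G]
    {A : Subalgebra k (G → k)} {H H' : Subgroup G} {N : Type*}
    [Fintype N] (ch : LChart A H H' N) (P : MvPolynomial N k)
    (h2 : ∀ g, ch.q0 g ≠ 0 → eval (fun j => ch.t g j) P = 0) : P = 0 := by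
  by_contra h
  obtain ⟨g, hg, hP⟩ := ch.dom P h
  exact hP (h2 g hg)

lemma LChart.mat_unique {k : Type*} [Field k] {G : Type*} [Group G]
    {A : Subalgebra k (G → k)} {H H' : Subgroup G} {N : Type*}
    [Fintype N] [DecidableEq N] (ch : LChart A H H' N) (R R' : Matrix N N k)
    (h : ∀ g, ch.q0 g ≠ 0 → ∀ j, ∑ l, R j l * ch.t g l = ∑ l, R' j l * ch.t g l) : R = R' := by
  ext i l0
  have h1 := ch.eq_zero_of_vanish (∑ l, C (R i l - R' i l) * X l) (by
    intro g hg
    simp only [map_sum, map_mul, eval_C, eval_X, sub_mul, Finset.sum_sub_distrib]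
    rw [h g hg i, sub_self])
  have h2 := congrArg (eval (Pi.single l0 (1 : k))) h1
  simp only [map_sum, map_mul, eval_C, eval_X, map_zero] at h2
  rw [Finset.sum_eq_single l0] at h2
  · rw [Pi.single_eq_same, mul_one] at h2
    exact sub_eq_zero.mp h2
  · intro l _ hl
    rw [Pi.single_eq_of_ne hl, mul_zero]
  · intro hl; exact absurd (Finset.mem_univ _) hl

theorem LChart.rational {k : Type*} [Field k] [IsAlgClosed k] [CharZero k] {G : Type*} [Group G]
    {A : Subalgebra k (G → k)} [IsDomain A] (hAff : Aff A) (hA : RStable A) {H H' : Subgroup G}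
    {N : Type*} [Fintype N] [DecidableEq N] (ch : LChart A H H' N)
    (hHcomm : ∀ h ∈ H', ∀ h' ∈ H', ∃ c ∈ H, h' * h = h * h' * c)
    (M : ℕ) (hM : 0 < M) (hHpow : ∀ h ∈ H', h ^ M ∈ H) :
    ∃ r : ℕ, ∃ v : Fin r → FractionRing A, AlgebraicIndependent k v ∧
      ∀ f : FractionRing A, f ∈ IntermediateField.adjoin k (Set.range v) ↔
        ∀ h ∈ H', trK hA h f = f := by
  classical
  have hqA : (⟨ch.q0, ch.q0_mem⟩ : A) ≠ 0 := fun h => ch.q0_ne (congrArg Subtype.val h)
  choose ρ hρ using fun h : H' => ch.equiv h.1 h.2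
  have hρH : ∀ h : H', (h : G) ∈ H → ρ h = 1 := by
    intro h hh
    apply ch.mat_unique
    intro g hg j
    rw [← (hρ h g hg).2 j, ch.inv h hh g hg j]
    simp [Matrix.one_apply]
  have hρmul : ∀ h h' : H', ρ (h * h') = ρ h' * ρ h := by
    intro h h'
    apply ch.mat_unique
    intro g hg j
    rw [← (hρ (h * h') g hg).2 j]
    have e1 : g * ((h * h' : H') : G) = g * h * h' := by push_cast; rw [mul_assoc]
    rw [e1, (hρ h' _ (hρ h g hg).1).2 j]
    simp only [(hρ h g hg).2, Matrix.mul_apply, Finset.mul_sum, Finset.sum_mul]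
    rw [Finset.sum_comm]
    exact Finset.sum_congr rfl fun l _ => Finset.sum_congr rfl fun i _ => by ring
  have hρcomm : ∀ h h' : H', ρ h * ρ h' = ρ h' * ρ h := by
    intro h h'
    obtain ⟨c, hc, hcc⟩ := hHcomm h.1 h.2 h'.1 h'.2
    have e : h' * h = h * h' * ⟨c, ch.hH hc⟩ := Subtype.ext hcc
    rw [← hρmul, ← hρmul, e, hρmul (h * h') _, hρH ⟨c, ch.hH hc⟩ hc, one_mul]
  have hρpow' : ∀ (m : ℕ) (h : H'), ρ (h ^ m) = ρ h ^ m := by
    intro m h
    induction m with
    | zero => rw [pow_zero, pow_zero, hρH 1 (one_mem H)]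
    | succ m ih => rw [pow_succ', hρmul, ih, pow_succ]
  have hρpow : ∀ h : H', ρ h ^ M = 1 := by
    intro h
    rw [← hρpow']
    exact hρH _ (hHpow h.1 h.2)
  choose τ hτ using fun j => exists_rep_of_mem_RegU ch.q0_mem ch.q0_ne (ch.treg j)
  -- algebraic independence
  have hind : AlgebraicIndependent k τ := by
    rw [algebraicIndependent_iff]
    intro P hP
    have h1 : Rep A (aeval τ P) (fun g => eval (fun j => ch.t g j) P) := Rep.aeval hτ P
    rw [hP] at h1
    exact ch.eq_zero_of_vanish P (eq_zero_of_rep ch.q0_mem (eval_mem_RegU ch.treg P) h1)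
  -- the fixed field is contained in k(τ)
  have hsub : ∀ f : FractionRing A, (∀ h ∈ H', trK hA h f = f) →
      f ∈ IntermediateField.adjoin k (Set.range τ) := by
    intro f hf
    obtain ⟨a, b, hb, rfl⟩ := IsFractionRing.div_surjective A f
    have hb0 : b ≠ 0 := nonZeroDivisors.ne_zero hb
    refine sep_generates hAff ch.q0_mem ch.q0_ne ch.t ch.treg τ hτ a b hb0 ?_
    intro g g' hg hg' ht
    obtain ⟨h, hh, rfl⟩ := ch.sep g g' hg hg' ht
    have h1 := hf h (ch.hH hh)
    rw [map_div₀, trK_algebraMap, trK_algebraMap] at h1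
    have hb1 : trA hA h b ≠ 0 := fun h0 => hb0 ((trA hA h).injective (h0.trans (map_zero _).symm))
    rw [div_eq_div_iff (aM_ne hb1) (aM_ne hb0), ← map_mul, ← map_mul] at h1
    have h2 := aM_inj h1
    have h3 := congrFun (congrArg Subtype.val h2) g
    exact h3.symm
  -- the action on τ
  have hact : ∀ (h : H') j, trK hA (h : G) (τ j)
      = ∑ l, algebraMap k (FractionRing A) (ρ h j l) * τ l := by
    intro h j
    refine Rep.unique (Rep.tr hA (h : G) (hτ j))
      (Rep.sum Finset.univ (fun l _ => (Rep.const (ρ h j l)).mul (hτ l)))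
      ⟨ch.q0, ch.q0_mem⟩ hqA ?_
    intro g hg
    exact (hρ h g hg).2 j
  obtain ⟨r, v, hv, hv2⟩ := linear_fixed τ hind ((trK hA).comp H'.subtype) ρ
    (fun h j => hact h j) hρcomm M (Nat.cast_ne_zero.mpr hM.ne') hρpow
  refine ⟨r, v, hv, fun f => ?_⟩
  rw [hv2]
  constructor
  · rintro ⟨_, h2⟩ h hh
    exact h2 ⟨h, hh⟩
  · intro h
    exact ⟨hsub f h, fun γ => h γ.1 γ.2⟩

/-- A chart with section is a chart. -/
noncomputable def Chart.toLChart {k : Type*} [Field k] [IsAlgClosed k] {G : Type*} [Group G]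
    {A : Subalgebra k (G → k)} {H H' : Subgroup G} {N : Type*}
    [Fintype N] [DecidableEq N] (ch : Chart A H H' N) : LChart A H H' N where
  hH := ch.hH
  q0 := ch.q0
  q0_mem := ch.q0_mem
  q0_ne := ch.q0_ne
  t := ch.t
  treg := ch.treg
  sep := by
    intro g g' hg hg' ht
    choose Y hY using fun j => IsAlgClosed.exists_pow_nat_eq (ch.t g j) (dd_pos ch.dbl j)
    obtain ⟨-, h, hh, hgs⟩ := ch.fiber g hg Y hY
    obtain ⟨-, h', hh', hgs'⟩ := ch.fiber g' hg' Y (fun j => by rw [hY j, ht])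
    refine ⟨h⁻¹ * h', mul_mem (inv_mem hh) hh', ?_⟩
    rw [hgs', hgs]
    group
  dom := by
    intro P hP
    by_contra hcon
    push Not at hcon
    exact hP (ch.eq_zero_of_vanish P hcon)
  inv := ch.inv
  equiv := ch.equiv

end Pool.Agent.Helper14.RG
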