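import Pool.Agent.Helper14.RG.LC.LChart
import Pool.Agent.Helper14.RG.Main

set_option autoImplicit false

/-!
# Products, transport and quotients for linear charts without section
-/

namespace Pool.Agent.Helper14.RG

open MvPolynomial

section Dense

variable {k : Type*} [Field k] [Infinite k] {C : Type*} [Fintype C] [DecidableEq C]
  {N : C → Type*}

/-- A product of dense sets is dense. -/
lemma dense_prod (Z : ∀ c, Set (N c → k))
    (hZ : ∀ c, ∀ P : MvPolynomial (N c) k, P ≠ 0 → ∃ z ∈ Z c, eval z P ≠ 0)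
    (P : MvPolynomial (Σ c, N c) k) (hP : P ≠ 0) :
    ∃ z : ∀ c, N c → k, (∀ c, z c ∈ Z c) ∧ eval (fun j : Σ c, N c => z j.1 j.2) P ≠ 0 := by
  classical
  have key : ∀ S : Finset C, ∃ z : ∀ c, N c → k, (∀ c ∈ S, z c ∈ Z c) ∧
      eval (fun j : Σ c, N c => z j.1 j.2) P ≠ 0 := by
    intro S
    induction S using Finset.induction_on with
    | empty =>
      have h1 : ∃ u : (Σ c, N c) → k, eval u P ≠ 0 := by
        by_contra hcon
        push Not at hcon
        exact hP (MvPolynomial.funext fun u => by rw [hcon u, map_zero])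
      obtain ⟨u, hu⟩ := h1
      exact ⟨fun c j => u ⟨c, j⟩, fun c hc => absurd hc (Finset.notMem_empty c), hu⟩
    | insert c S hc ih =>
      obtain ⟨z, hz, hzP⟩ := ih
      let f : (Σ c, N c) → MvPolynomial (N c) k := fun j =>
        if h : j.1 = c then MvPolynomial.X (h ▸ j.2) else MvPolynomial.C (z j.1 j.2)
      let Q : MvPolynomial (N c) k := bind₁ f P
      have hQ : ∀ w : N c → k, eval w Q
          = eval (fun j : Σ c, N c => (Function.update z c w) j.1 j.2) P := by
        intro w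
        have h1 : ∀ R : MvPolynomial (Σ c, N c) k, eval w (bind₁ f R)
            = eval (fun j => eval w (f j)) R := by
          intro R
          induction R using MvPolynomial.induction_on with
          | C c => simp
          | add p q hp hq => rw [map_add, map_add, map_add, hp, hq]
          | mul_X p j hp => rw [map_mul, map_mul, map_mul, hp, bind₁_X_right, eval_X]
        show eval w (bind₁ f P) = _
        rw [h1]
        congr 2
        funext j
        obtain ⟨c', j⟩ := j
        by_cases h : c' = c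
        · subst h
          simp [f]
        · simp [f, h, Function.update_of_ne h]
      have hQ0 : Q ≠ 0 := by
        intro h0
        apply hzP
        have h1 := hQ (z c)
        rw [h0, map_zero, Function.update_eq_self] at h1
        exact h1.symm
      obtain ⟨w, hw, hwQ⟩ := hZ c Q hQ0
      refine ⟨Function.update z c w, ?_, ?_⟩
      · intro c' hc'
        by_cases h : c' = c
        · subst h
          rw [Function.update_self]
          exact hw
        · rw [Function.update_of_ne h]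
          exact hz c' (Finset.mem_of_mem_insert_of_ne hc' h)
      · rw [← hQ w]
        exact hwQ
  obtain ⟨z, hz, hzP⟩ := key Finset.univ
  exact ⟨z, fun c => hz c (Finset.mem_univ c), hzP⟩

end Dense

section Aff

variable {k : Type*} [Field k]

/-- the coordinate index set may be any finite type -/
lemma Aff.of {G : Type*} {A : Subalgebra k (G → k)} {N : Type*} [Finite N] (x : N → G → k)
    (hA : A = Algebra.adjoin k (Set.range x))
    (h : ∀ z : N → k, (∀ P : MvPolynomial N k, (∀ g, eval (fun i => x i g) P = 0) → eval z P = 0) →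
      ∃ g, ∀ i, x i g = z i) : Aff A := by
  obtain ⟨n, ⟨e⟩⟩ := Finite.exists_equiv_fin N
  refine ⟨Fin n, inferInstance, fun i => x (e.symm i), ?_, ?_⟩
  · rw [hA]
    congr 1
    ext f
    constructor
    · rintro ⟨i, rfl⟩
      exact ⟨e i, by simp⟩
    · rintro ⟨i, rfl⟩
      exact ⟨e.symm i, rfl⟩
  · intro z hz
    obtain ⟨g, hg⟩ := h (fun i => z (e i)) (by
      intro P hP
      have h1 := hz (rename e P) (by
        intro g
        rw [eval_rename]
        have h2 : ((fun i => x (e.symm i) g) ∘ e) = fun i => x i g := by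
          funext i
          simp
        rw [h2]
        exact hP g)
      rw [eval_rename] at h1
      exact h1)
    refine ⟨g, fun i => ?_⟩
    show x (e.symm i) g = z i
    rw [hg, Equiv.apply_symm_apply]

lemma Aff.prod {C : Type*} [Fintype C] [DecidableEq C] {G : C → Type*}
    {A : ∀ c, Subalgebra k (G c → k)} (h : ∀ c, Aff (A c)) : Aff (prodAlg A) := by
  choose N hN x hA hpt using h
  refine Aff.of (N := Σ c, N c) (fun j g => x j.1 j.2 (g j.1)) ?_ ?_
  · apply le_antisymm
    · apply Algebra.adjoin_le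
      rintro _ ⟨c, a, ha, rfl⟩
      rw [hA] at ha
      induction ha using Algebra.adjoin_induction with
      | mem y hy =>
        obtain ⟨j, rfl⟩ := hy
        exact Algebra.subset_adjoin ⟨⟨c, j⟩, rfl⟩
      | algebraMap r => exact Subalgebra.algebraMap_mem _ r
      | add y z _ _ hy hz => exact add_mem hy hz
      | mul y z _ _ hy hz => exact mul_mem hy hz
    · apply Algebra.adjoin_le
      rintro _ ⟨⟨c, j⟩, rfl⟩
      exact mem_prodAlg A c (hA c ▸ Algebra.subset_adjoin ⟨j, rfl⟩)
  · intro z hz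
    have h1 : ∀ c, ∃ g : G c, ∀ i, x c i g = z ⟨c, i⟩ := by
      intro c
      apply hpt c
      intro P hP
      have h2 := hz (rename (Sigma.mk c) P) (by
        intro g
        rw [eval_rename]
        exact hP (g c))
      rw [eval_rename] at h2
      exact h2
    choose g hg using h1
    exact ⟨g, fun j => hg j.1 j.2⟩

end Aff

section Prod

variable {k : Type*} [Field k] {C : Type*} [Fintype C] [DecidableEq C] {G : C → Type*}
  [∀ c, Group (G c)]

/-- product of charts -/
noncomputable def LChart.prod [Infinite k] {A : ∀ c, Subalgebra k (G c → k)}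
    {H H' : ∀ c, Subgroup (G c)}
    {N : C → Type*} [∀ c, Fintype (N c)] [∀ c, DecidableEq (N c)]
    (ch : ∀ c, LChart (A c) (H c) (H' c) (N c))
    (HH : Subgroup (∀ c, G c)) (h1 : Subgroup.pi Set.univ H ≤ HH)
    (h2 : HH ≤ Subgroup.pi Set.univ H') :
    LChart (prodAlg A) (Subgroup.pi Set.univ H) HH (Σ c, N c) where
  hH := h1
  q0 := fun g => ∏ c, (ch c).q0 (g c)
  q0_mem := by
    have : (fun g : ∀ c, G c => ∏ c, (ch c).q0 (g c)) = ∏ c, fun g : ∀ c, G c => (ch c).q0 (g c) := by
      funext g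
      rw [Finset.prod_apply]
    rw [this]
    exact prod_mem fun c _ => mem_prodAlg A c (ch c).q0_mem
  q0_ne := by
    choose g hg using fun c => Function.ne_iff.mp (ch c).q0_ne
    exact Function.ne_iff.mpr ⟨g, Finset.prod_ne_zero_iff.mpr fun c _ => hg c⟩
  t := fun g j => (ch j.1).t (g j.1) j.2
  treg := by
    rintro ⟨c, j⟩
    obtain ⟨a, ha, b, hb, h⟩ := (ch c).treg j
    refine ⟨_, mem_prodAlg A c ha, _, mem_prodAlg A c hb, fun g hg => ?_⟩
    exact h (g c) (Finset.prod_ne_zero_iff.mp hg c (Finset.mem_univ c))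
  sep := by
    intro g g' hg hg' ht
    have hf : ∀ c, ∃ h ∈ H c, g' c = g c * h := by
      intro c
      apply (ch c).sep (g c) (g' c) (Finset.prod_ne_zero_iff.mp hg c (Finset.mem_univ c))
        (Finset.prod_ne_zero_iff.mp hg' c (Finset.mem_univ c))
      funext j
      exact congrFun ht ⟨c, j⟩
    choose h hh hgs using hf
    exact ⟨h, fun c _ => hh c, funext fun c => hgs c⟩
  dom := by
    intro P hP
    obtain ⟨z, hz, hzP⟩ := dense_prod (fun c => {w | ∃ g, (ch c).q0 g ≠ 0 ∧ (ch c).t g = w})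
      (fun c Q hQ => by
        obtain ⟨g, hg, hgQ⟩ := (ch c).dom Q hQ
        exact ⟨_, ⟨g, hg, rfl⟩, hgQ⟩) P hP
    choose g hg hgz using hz
    refine ⟨g, Finset.prod_ne_zero_iff.mpr fun c _ => hg c, ?_⟩
    have h3 : (fun j : Σ c, N c => (ch j.1).t (g j.1) j.2) = fun j => z j.1 j.2 := by
      funext j
      rw [hgz]
    show eval (fun j : Σ c, N c => (ch j.1).t (g j.1) j.2) P ≠ 0
    rw [h3]
    exact hzP
  inv := by
    intro h hh g hg
    rintro ⟨c, j⟩
    exact (ch c).inv (h c) (hh c (Set.mem_univ c)) (g c)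
      (Finset.prod_ne_zero_iff.mp hg c (Finset.mem_univ c)) j
  equiv := by
    intro h hh
    choose ρ hρ using fun c => (ch c).equiv (h c) (h2 hh c (Set.mem_univ c))
    refine ⟨Matrix.blockDiagonal' ρ, fun g hg => ?_⟩
    have hf := fun c => hρ c (g c) (Finset.prod_ne_zero_iff.mp hg c (Finset.mem_univ c))
    refine ⟨Finset.prod_ne_zero_iff.mpr fun c _ => (hf c).1, ?_⟩
    rintro ⟨c, j⟩
    rw [Fintype.sum_sigma, Finset.sum_eq_single c]
    · simp only [Matrix.blockDiagonal'_apply_eq]
      exact (hf c).2 j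
    · intro c' _ hc'
      refine Finset.sum_eq_zero fun l _ => ?_
      rw [Matrix.blockDiagonal'_apply_ne _ _ _ (Ne.symm hc'), zero_mul]
    · intro hc; exact absurd (Finset.mem_univ c) hc

end Prod

/-- Transport of a chart along a bijection which is a cocycle for the subgroup `H1'`. -/
noncomputable def LChart.transport {k : Type*} [Field k] {G1 G2 : Type*} [Group G1] [Group G2]
    {A1 : Subalgebra k (G1 → k)} {A2 : Subalgebra k (G2 → k)} {H2 H2' : Subgroup G2}
    {N : Type*} [Fintype N] (ch : LChart A2 H2 H2' N)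
    (H1 H1' : Subgroup G1) (hH : H1 ≤ H1') (Φ : G1 ≃ G2)
    (hΦ : ∀ a ∈ A2, (fun g => a (Φ g)) ∈ A1)
    (φ : G1 → G2) (hφ' : ∀ h ∈ H1', φ h ∈ H2') (hφ : ∀ h ∈ H1, φ h ∈ H2)
    (hφs : ∀ h2 ∈ H2, ∃ h ∈ H1, φ h = h2)
    (hcoc : ∀ h ∈ H1', ∀ g, Φ (g * h) = Φ g * φ h) : LChart A1 H1 H1' N where
  hH := hH
  q0 := fun g => ch.q0 (Φ g)
  q0_mem := hΦ _ ch.q0_mem
  q0_ne := by
    obtain ⟨g, hg⟩ := Function.ne_iff.mp ch.q0_ne
    exact Function.ne_iff.mpr ⟨Φ.symm g, by rw [Equiv.apply_symm_apply]; exact hg⟩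
  t := fun g => ch.t (Φ g)
  treg := by
    intro j
    obtain ⟨a, ha, b, hb, h⟩ := ch.treg j
    exact ⟨_, hΦ a ha, _, hΦ b hb, fun g hg => h (Φ g) hg⟩
  sep := by
    intro g g' hg hg' ht
    obtain ⟨h2, hh2, h3⟩ := ch.sep (Φ g) (Φ g') hg hg' ht
    obtain ⟨h, hh, rfl⟩ := hφs h2 hh2
    refine ⟨h, hh, ?_⟩
    apply Φ.injective
    rw [hcoc h (hH hh), h3]
  dom := by
    intro P hP
    obtain ⟨g, hg, hgP⟩ := ch.dom P hP
    refine ⟨Φ.symm g, ?_, ?_⟩
    · rw [Equiv.apply_symm_apply]
      exact hg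
    · rw [Equiv.apply_symm_apply]
      exact hgP
  inv := by
    intro h hh g hg j
    rw [hcoc h (hH hh)]
    exact ch.inv (φ h) (hφ h hh) (Φ g) hg j
  equiv := by
    intro h hh
    obtain ⟨ρ, hρ⟩ := ch.equiv (φ h) (hφ' h hh)
    refine ⟨ρ, fun g hg => ?_⟩
    rw [hcoc h hh]
    exact hρ (Φ g) hg

section Quot

variable {k : Type*} [Field k] [IsAlgClosed k] [CharZero k] {C : Type*} [Fintype C]
  [DecidableEq C] {G : C → Type*} [∀ c, Group (G c)]

theorem Lprod_quot_rational {A : ∀ c, Subalgebra k (G c → k)} (hirr : ∀ c, Irr (A c))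
    (hst : ∀ c, RStable (A c)) (haff : ∀ c, Aff (A c)) (τ : ∀ c, G c ≃* G c)
    {N : C → Type*} [∀ c, Fintype (N c)] [∀ c, DecidableEq (N c)]
    (ch : ∀ c, LChart (A c) (fixSub (τ c)) (fixMod (τ c)) (N c))
    {Q : Type*} [Group Q] (π : (∀ c, G c) →* Q) (hπ : Function.Surjective π)
    (hZ : π.ker ≤ Subgroup.center _) [Finite π.ker]
    (σ : Q ≃* Q) (hσ : ∀ g : ∀ c, G c, σ (π g) = π (fun c => τ c (g c))) :
    RationalQuotient (quotAlg (prodAlg A) π : Set (Q → k)) (fixSub σ) := by
  have hA : RStable (prodAlg A) := RStable.prod hst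
  have hAff : Aff (prodAlg A) := Aff.prod haff
  have hdom : IsDomain (prodAlg A) := (Irr.prod hirr).isDomain
  have hdomq : IsDomain (quotAlg (prodAlg A) π) := ((Irr.prod hirr).quot π hπ).isDomain
  let HH : Subgroup (∀ c, G c) := (fixSub σ).comap π
  have hHH : ∀ g : ∀ c, G c, g ∈ HH ↔ ∃ z ∈ π.ker, (fun c => τ c (g c)) = z * g := by
    intro g
    have h0 : g ∈ HH ↔ σ (π g) = π g := Iff.rfl
    rw [h0, hσ]
    constructor
    · intro h
      refine ⟨(fun c => τ c (g c)) * g⁻¹, ?_, by group⟩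
      rw [MonoidHom.mem_ker, map_mul, map_inv, h, mul_inv_cancel]
    · rintro ⟨z, hz, h⟩
      rw [h, map_mul, MonoidHom.mem_ker.mp hz, one_mul]
  have h1 : Subgroup.pi Set.univ (fun c => fixSub (τ c)) ≤ HH := by
    intro g hg
    rw [hHH]
    refine ⟨1, one_mem _, ?_⟩
    rw [one_mul]
    funext c
    exact hg c (Set.mem_univ c)
  have h2 : HH ≤ Subgroup.pi Set.univ (fun c => fixMod (τ c)) := by
    intro g hg c _
    obtain ⟨z, hz, h⟩ := (hHH g).mp hg
    exact ⟨z c, center_apply (hZ hz) c, congrFun h c⟩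
  have hcomm : ∀ h ∈ HH, ∀ h' ∈ HH, ∃ c ∈ Subgroup.pi Set.univ (fun c => fixSub (τ c)),
      h' * h = h * h' * c := by
    intro h hh h' hh'
    refine ⟨(h * h')⁻¹ * (h' * h), ?_, by group⟩
    intro c _
    obtain ⟨z, hz, e1⟩ := h2 hh c (Set.mem_univ c)
    obtain ⟨z', hz', e2⟩ := h2 hh' c (Set.mem_univ c)
    show τ c (((h * h')⁻¹ * (h' * h)) c) = ((h * h')⁻¹ * (h' * h)) c
    simp only [Pi.mul_apply, Pi.inv_apply]
    rw [map_mul, map_inv, map_mul, map_mul, e1, e2]
    have c1 := Subgroup.mem_center_iff.mp hz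
    have c2 := Subgroup.mem_center_iff.mp hz'
    have e3 : z * h c * (z' * h' c) = (z * z') * (h c * h' c) := by
      calc z * h c * (z' * h' c) = z * (h c * z') * h' c := by simp only [mul_assoc]
        _ = z * (z' * h c) * h' c := by rw [c2]
        _ = (z * z') * (h c * h' c) := by simp only [mul_assoc]
    have e4 : z' * h' c * (z * h c) = (z * z') * (h' c * h c) := by
      calc z' * h' c * (z * h c) = z' * (h' c * z) * h c := by simp only [mul_assoc]
        _ = z' * (z * h' c) * h c := by rw [c1]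
        _ = (z' * z) * (h' c * h c) := by simp only [mul_assoc]
        _ = (z * z') * (h' c * h c) := by rw [c1 z']
    rw [e3, e4]
    group
  have hpow : ∀ h ∈ HH, h ^ Nat.card π.ker ∈ Subgroup.pi Set.univ (fun c => fixSub (τ c)) := by
    intro h hh c _
    obtain ⟨z, hz, h3⟩ := (hHH h).mp hh
    have e1 : τ c (h c) = z c * h c := congrFun h3 c
    have hzc := center_apply (hZ hz) c
    show τ c ((h ^ Nat.card π.ker) c) = (h ^ Nat.card π.ker) c
    rw [Pi.pow_apply, map_pow, e1]
    have hcm : Commute (z c) (h c) := (Subgroup.mem_center_iff.mp hzc (h c)).symm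
    rw [hcm.mul_pow]
    have h4 : z ^ Nat.card π.ker = 1 := by
      have := pow_card_eq_one' (x := (⟨z, hz⟩ : π.ker))
      exact congrArg Subtype.val this
    have h5 : (z c) ^ Nat.card π.ker = 1 := by
      rw [← Pi.pow_apply, h4]; rfl
    rw [h5, one_mul]
  obtain ⟨r, v, hv, hv2⟩ := (LChart.prod ch HH h1 h2).rational hAff hA hcomm (Nat.card π.ker)
    Nat.card_pos hpow
  obtain ⟨y, hy, hy2⟩ := quot_rational' hA π hπ (fixSub σ) v hv hv2
  exact rationalQuotient_of (hA.quot π hπ) (fixSub σ) y hy hy2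

end Quot

end Pool.Agent.Helper14.RG
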