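import Mathlib

set_option autoImplicit false

/-!
# Separating functions generate, in characteristic zero: the two embeddings

For fields `F ⊆ K` of characteristic zero and `f ∈ K`, `f ∉ F`, there are two `F`-embeddings of `K`
into a field which differ at `f`.
-/

namespace Pool.Agent.Helper14.RG

open IntermediateField TensorProduct

section Two

universe u v

variable {F : Type u} {K : Type v} [Field F] [Field K] [Algebra F K]

/-- two homomorphisms of `F(f)` which differ at `f` -/
lemma exists_two_gen [CharZero F] (f : K) (hf : f ∉ Set.range (algebraMap F K)) :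
    ∃ (L : Type (max u v)) (_ : Field L) (_ : Algebra F L) (φ φ' : F⟮f⟯ →ₐ[F] L),
      φ (AdjoinSimple.gen F f) ≠ φ' (AdjoinSimple.gen F f) := by
  by_cases hint : IsIntegral F f
  · refine ⟨ULift.{v} (AlgebraicClosure F), inferInstance, inferInstance, ?_⟩
    have hirr : Irreducible (minpoly F f) := minpoly.irreducible hint
    have hsep : (minpoly F f).Separable := hirr.separable
    have hdeg : 2 ≤ (minpoly F f).natDegree := by
      rw [minpoly.two_le_natDegree_iff hint]
      exact hf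
    let e : AlgebraicClosure F ≃ₐ[F] ULift.{v} (AlgebraicClosure F) := ULift.algEquiv.symm
    have hsp : ((minpoly F f).map (algebraMap F (AlgebraicClosure F))).Splits :=
      IsAlgClosed.splits _
    have hcard := card_algHom_adjoin_integral F (K := AlgebraicClosure F) hint hsep hsp
    have hne : ∃ φ φ' : F⟮f⟯ →ₐ[F] AlgebraicClosure F, φ ≠ φ' := by
      by_contra hcon
      push Not at hcon
      have : Subsingleton (F⟮f⟯ →ₐ[F] AlgebraicClosure F) := ⟨hcon⟩
      have h3 : Finite (F⟮f⟯ →ₐ[F] AlgebraicClosure F) := inferInstance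
      have h2 : Nat.card (F⟮f⟯ →ₐ[F] AlgebraicClosure F) ≤ 1 :=
        Finite.card_le_one_iff_subsingleton.mpr this
      omega
    obtain ⟨φ, φ', hne⟩ := hne
    refine ⟨e.toAlgHom.comp φ, e.toAlgHom.comp φ', ?_⟩
    intro h
    apply hne
    apply (adjoin.powerBasis hint).algHom_ext
    rw [adjoin.powerBasis_gen]
    exact e.injective h
  · have htr : Transcendental F f := fun h => hint h.isIntegral
    have htr' : Transcendental F (f + 1) := by
      intro h
      apply htr
      have h1 : IsAlgebraic F ((f + 1) - 1) := h.sub (isAlgebraic_one)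
      rwa [add_sub_cancel_right] at h1
    refine ⟨ULift.{u} K, inferInstance, inferInstance, ?_⟩
    let e : K ≃ₐ[F] ULift.{u} K := ULift.algEquiv.symm
    let ψ : F⟮f⟯ →ₐ[F] K := (F⟮f + 1⟯.val.comp
      (RatFunc.algEquivOfTranscendental (f + 1) htr').toAlgHom).comp
      (RatFunc.algEquivOfTranscendental f htr).symm.toAlgHom
    refine ⟨e.toAlgHom.comp (F⟮f⟯.val), e.toAlgHom.comp ψ, ?_⟩
    intro h
    have h1 : F⟮f⟯.val (AdjoinSimple.gen F f) = ψ (AdjoinSimple.gen F f) := e.injective h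
    have h2 : ψ (AdjoinSimple.gen F f) = f + 1 := by
      have h3 : (RatFunc.algEquivOfTranscendental f htr).symm (AdjoinSimple.gen F f) = RatFunc.X := by
        rw [AlgEquiv.symm_apply_eq]
        apply Subtype.ext
        rw [RatFunc.algEquivOfTranscendental_X]
        rfl
      show F⟮f + 1⟯.val (RatFunc.algEquivOfTranscendental (f + 1) htr'
        ((RatFunc.algEquivOfTranscendental f htr).symm (AdjoinSimple.gen F f))) = f + 1
      rw [h3]
      exact RatFunc.algEquivOfTranscendental_X _ _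
    rw [h2] at h1
    have h4 : f = f + 1 := h1
    exact one_ne_zero (add_eq_left.mp h4.symm)

/-- two embeddings of `K` over `F` into a field, which differ at `f ∉ F` -/
theorem exists_two_hom [CharZero F] (f : K) (hf : f ∉ Set.range (algebraMap F K)) :
    ∃ (L : Type v) (_ : Field L) (φ φ' : K →+* L),
      (∀ x : F, φ (algebraMap F K x) = φ' (algebraMap F K x)) ∧ φ f ≠ φ' f := by
  obtain ⟨L, _, _, ψ, ψ', hψ⟩ := exists_two_gen f hf
  let x : K ⊗[F] K := f ⊗ₜ[F] 1 - 1 ⊗ₜ[F] f
  let y : F⟮f⟯ ⊗[F] F⟮f⟯ := AdjoinSimple.gen F f ⊗ₜ[F] 1 - 1 ⊗ₜ[F] AdjoinSimple.gen F f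
  let Ψ : F⟮f⟯ ⊗[F] F⟮f⟯ →ₐ[F] L := Algebra.TensorProduct.lift ψ ψ' (fun _ _ => Commute.all _ _)
  have hΨ : Ψ y ≠ 0 := by
    show Ψ (AdjoinSimple.gen F f ⊗ₜ[F] 1 - 1 ⊗ₜ[F] AdjoinSimple.gen F f) ≠ 0
    rw [map_sub, Algebra.TensorProduct.lift_tmul, Algebra.TensorProduct.lift_tmul, map_one, map_one,
      mul_one, one_mul]
    exact sub_ne_zero.mpr hψ
  have hy : ¬ IsNilpotent y := by
    rintro ⟨n, hn⟩
    have h1 : Ψ (y ^ n) = Ψ y ^ n := Ψ.map_pow y n
    have h0 : Ψ 0 = 0 := Ψ.toRingHom.map_zero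
    rw [hn] at h1
    have h2 : Ψ y ^ n = 0 := h1.symm.trans h0
    exact hΨ (eq_zero_of_pow_eq_zero h2)
  let j : F⟮f⟯ ⊗[F] F⟮f⟯ →ₐ[F] K ⊗[F] K := Algebra.TensorProduct.map F⟮f⟯.val F⟮f⟯.val
  have hj : Function.Injective j := by
    have h1 := TensorProduct.map_injective_of_flat_flat (F⟮f⟯.val.toLinearMap) (F⟮f⟯.val.toLinearMap)
      Subtype.val_injective Subtype.val_injective
    exact h1
  have hjy : j y = x := by
    show j (AdjoinSimple.gen F f ⊗ₜ[F] 1 - 1 ⊗ₜ[F] AdjoinSimple.gen F f) = f ⊗ₜ[F] 1 - 1 ⊗ₜ[F] f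
    rw [map_sub, Algebra.TensorProduct.map_tmul, Algebra.TensorProduct.map_tmul, map_one]
    rfl
  have hx : ¬ IsNilpotent x := by
    rintro ⟨n, hn⟩
    apply hy
    refine ⟨n, hj ?_⟩
    have h1 : j (y ^ n) = j y ^ n := j.map_pow y n
    have h0 : j 0 = 0 := j.toRingHom.map_zero
    rw [h1, hjy, hn]
    exact h0.symm
  have hx' : ∃ p : Ideal (K ⊗[F] K), p.IsPrime ∧ x ∉ p := by
    by_contra hcon
    push Not at hcon
    apply hx
    rw [← mem_nilradical, nilradical_eq_sInf, Submodule.mem_sInf]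
    intro p hp
    exact hcon p hp
  obtain ⟨p, hp, hxp⟩ := hx'
  refine ⟨FractionRing ((K ⊗[F] K) ⧸ p), inferInstance,
    ((algebraMap ((K ⊗[F] K) ⧸ p) (FractionRing ((K ⊗[F] K) ⧸ p))).comp
      (Ideal.Quotient.mk p)).comp
      (Algebra.TensorProduct.includeLeft : K →ₐ[F] K ⊗[F] K).toRingHom,
    ((algebraMap ((K ⊗[F] K) ⧸ p) (FractionRing ((K ⊗[F] K) ⧸ p))).comp
      (Ideal.Quotient.mk p)).comp
      (Algebra.TensorProduct.includeRight : K →ₐ[F] K ⊗[F] K).toRingHom, ?_, ?_⟩
  · intro a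
    simp only [RingHom.comp_apply]
    have h1 : (Algebra.TensorProduct.includeLeft : K →ₐ[F] K ⊗[F] K).toRingHom (algebraMap F K a)
        = algebraMap F _ a := AlgHom.commutes _ a
    have h2 : (Algebra.TensorProduct.includeRight : K →ₐ[F] K ⊗[F] K).toRingHom (algebraMap F K a)
        = algebraMap F _ a := AlgHom.commutes _ a
    rw [h1, h2]
  · intro h
    simp only [RingHom.comp_apply] at h
    have h1 := IsFractionRing.injective ((K ⊗[F] K) ⧸ p) (FractionRing ((K ⊗[F] K) ⧸ p)) h
    rw [Ideal.Quotient.eq] at h1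
    exact hxp h1

end Two

section Points

open MvPolynomial

variable {k : Type*} [Field k] [IsAlgClosed k]

/-- Nullstellensatz: a polynomial which does not vanish at a point with coordinates in an extension
field does not vanish at some `k`-point satisfying all the relations of the first point. -/
theorem exists_point {N : Type*} [Finite N] {L : Type*} [Field L] (ι : k →+* L) (u : N → L)
    (P : MvPolynomial N k) (hP : eval₂ ι u P ≠ 0) :
    ∃ z : N → k, eval z P ≠ 0 ∧ ∀ Q : MvPolynomial N k, eval₂ ι u Q = 0 → eval z Q = 0 := by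
  let J : Ideal (MvPolynomial N k) := RingHom.ker (eval₂Hom ι u)
  have hJ : J.IsPrime := RingHom.ker_isPrime _
  have h1 := MvPolynomial.vanishingIdeal_zeroLocus_eq_radical (K := k) J
  rw [hJ.radical] at h1
  have h2 : P ∉ MvPolynomial.vanishingIdeal k (MvPolynomial.zeroLocus k J) := by
    rw [h1]
    exact hP
  rw [MvPolynomial.mem_vanishingIdeal_iff] at h2
  push Not at h2
  obtain ⟨z, hz, hzP⟩ := h2
  refine ⟨z, ?_, ?_⟩
  · intro h0
    apply hzP
    rw [← h0]
    rfl
  · intro Q hQ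
    have := hz Q hQ
    rw [← this]
    rfl

end Points

end Pool.Agent.Helper14.RG
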